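import Pool.Agent.Q257.HF.Tab

/-!
Isomorphism classes and labelled structures.
-/

set_option autoImplicit false

namespace Q257.HF

open Finset

section Act

variable {r : ℕ}

/-- isomorphism -/
def Iso (p q : X r) : Prop :=
  ∃ e : Fin (r+1) ≃ Fin (r+1), ∀ a b, e (p.1 a b) = q.1 (e a) (e b) ∧ e '' p.2 a b = q.2 (e a) (e b)

/-- transport of structure -/
def act (e : Equiv.Perm (Fin (r+1))) (p : X r) : X r :=
  (fun a b => e (p.1 (e.symm a) (e.symm b)), fun a b => e '' p.2 (e.symm a) (e.symm b))

lemma iso_iff (p q : X r) : Iso p q ↔ ∃ e, q = act e p := by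
  constructor
  · rintro ⟨e, h⟩
    refine ⟨e, Prod.ext ?_ ?_⟩
    · funext a b
      have := (h (e.symm a) (e.symm b)).1
      rw [e.apply_symm_apply, e.apply_symm_apply] at this
      exact this.symm
    · funext a b
      have := (h (e.symm a) (e.symm b)).2
      rw [e.apply_symm_apply, e.apply_symm_apply] at this
      exact this.symm
  · rintro ⟨e, rfl⟩
    refine ⟨e, fun a b => ?_⟩
    unfold act
    simp

lemma act_mul (e e' : Equiv.Perm (Fin (r+1))) (p : X r) : act (e * e') p = act e (act e' p) := by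
  refine Prod.ext ?_ ?_
  · rfl
  · funext a b
    show (e * e') '' p.2 ((e * e').symm a) ((e * e').symm b) = e '' (e' '' _)
    rw [Set.image_image]
    rfl

lemma act_one (p : X r) : act 1 p = p := by
  refine Prod.ext rfl ?_
  funext a b
  show (fun x => x) '' p.2 a b = p.2 a b
  rw [Set.image_id']

lemma Iso.refl (p : X r) : Iso p p := (iso_iff p p).2 ⟨1, (act_one p).symm⟩

lemma Iso.symm {p q : X r} (h : Iso p q) : Iso q p := by
  obtain ⟨e, rfl⟩ := (iso_iff p q).1 h
  refine (iso_iff _ _).2 ⟨e⁻¹, ?_⟩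
  rw [← act_mul, inv_mul_cancel, act_one]

lemma Iso.trans {p q s : X r} (h : Iso p q) (h' : Iso q s) : Iso p s := by
  obtain ⟨e, rfl⟩ := (iso_iff p q).1 h
  obtain ⟨e', rfl⟩ := (iso_iff _ s).1 h'
  exact (iso_iff _ _).2 ⟨e' * e, by rw [act_mul]⟩

/-- the class -/
def Cm (P : X r → Prop) (p : X r) : Set (X r) := {q | P q ∧ Iso p q}

lemma Cm_eq {P : X r → Prop} {p q : X r} (h : Iso p q) : Cm P p = Cm P q := by
  ext s
  exact ⟨fun h1 => ⟨h1.1, h.symm.trans h1.2⟩, fun h1 => ⟨h1.1, h.trans h1.2⟩⟩

lemma iso_of_Cm_eq {P : X r → Prop} {p q : X r} (hq : P q) (h : Cm P p = Cm P q) : Iso p q := by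
  have : q ∈ Cm P q := ⟨hq, Iso.refl q⟩
  rw [← h] at this
  exact this.2

open Classical in
lemma classes_lower (P : X r → Prop) : {p | P p}.ncard ≤
    (r + 1).factorial * {C | ∃ p, P p ∧ C = Cm P p}.ncard := by
  have hfin : {p : X r | P p}.Finite := Set.toFinite _
  have h1 : {C | ∃ p, P p ∧ C = Cm P p} = ((hfin.toFinset.image (Cm P) : Finset (Set (X r))) :
      Set (Set (X r))) := by
    ext C
    simp only [Set.mem_ofPred_eq, coe_image, Set.Finite.coe_toFinset, Set.mem_image]
    constructor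
    · rintro ⟨p, hp, rfl⟩; exact ⟨p, hp, rfl⟩
    · rintro ⟨p, hp, rfl⟩; exact ⟨p, hp, rfl⟩
  rw [h1, Set.ncard_coe_finset, Set.ncard_eq_toFinset_card _ hfin]
  refine Finset.card_le_mul_card_image _ _ ?_
  intro C hC
  rw [mem_image] at hC
  obtain ⟨p, hp, rfl⟩ := hC
  have hsub : hfin.toFinset.filter (fun q => Cm P q = Cm P p) ⊆
      (univ : Finset (Equiv.Perm (Fin (r+1)))).image (fun e => act e p) := by
    intro q hq
    rw [mem_filter, Set.Finite.mem_toFinset] at hq
    have h2 := iso_of_Cm_eq hq.1 hq.2.symm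
    obtain ⟨e, he⟩ := (iso_iff _ _).1 h2
    rw [mem_image]
    exact ⟨e, mem_univ _, he.symm⟩
  refine (card_le_card hsub).trans (card_image_le.trans ?_)
  rw [Finset.card_univ, Fintype.card_perm, Fintype.card_fin]

end Act

section Gens

lemma gens_aux (M : Type) [Group M] [Finite M] (H : Subgroup M) : ∃ S : Finset M,
    Subgroup.closure ((H : Set M) ∪ S) = ⊤ ∧ 2 ^ S.card * Nat.card H ≤ Nat.card M := by
  classical
  induction H using WellFoundedGT.induction with
  | ind H ih =>
    by_cases hH : H = ⊤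
    · refine ⟨∅, ?_, ?_⟩
      · rw [hH]; simp
      · rw [hH]; simp
    · obtain ⟨x, hx⟩ : ∃ x, x ∉ H := by
        by_contra hcon
        push Not at hcon
        exact hH (eq_top_iff.2 fun y _ => hcon y)
      set H' := H ⊔ Subgroup.closure {x} with hH'
      have hle : H ≤ H' := le_sup_left
      have hxH' : x ∈ H' := (le_sup_right : Subgroup.closure {x} ≤ H')
        (Subgroup.subset_closure (Set.mem_singleton x))
      have hlt : H < H' := lt_of_le_of_ne hle (fun h => hx (h ▸ hxH'))
      obtain ⟨S, hS1, hS2⟩ := ih H' hlt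
      refine ⟨insert x S, ?_, ?_⟩
      · rw [eq_top_iff, ← hS1, Subgroup.closure_le]
        intro y hy
        rcases hy with hy | hy
        · have h1 : H' ≤ Subgroup.closure ((H : Set M) ∪ ((insert x S : Finset M) : Set M)) := by
            rw [hH']
            refine sup_le ?_ ?_
            · intro z hz
              exact Subgroup.subset_closure (Or.inl hz)
            · rw [Subgroup.closure_le, Set.singleton_subset_iff]
              exact Subgroup.subset_closure (Or.inr (by simp))
          exact h1 hy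
        · exact Subgroup.subset_closure (Or.inr (by
            rw [Finset.mem_coe] at hy ⊢
            exact mem_insert_of_mem hy))
      · have hd : Nat.card H ∣ Nat.card H' := Subgroup.card_dvd_of_le hle
        have hne : Nat.card H ≠ Nat.card H' := by
          intro h
          exact hlt.ne (Subgroup.eq_of_le_of_card_ge hle h.ge)
        obtain ⟨k, hk⟩ := hd
        have hpos : 0 < Nat.card H' := Nat.card_pos
        have hk2 : 2 ≤ k := by
          by_contra hcon
          push Not at hcon
          interval_cases k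
          · omega
          · omega
        have h3 : 2 * Nat.card H ≤ Nat.card H' := by
          rw [hk, mul_comm]
          exact Nat.mul_le_mul_left _ hk2
        calc 2 ^ (insert x S).card * Nat.card H ≤ 2 ^ (S.card + 1) * Nat.card H :=
              Nat.mul_le_mul_right _ (Nat.pow_le_pow_right (by norm_num) (card_insert_le _ _))
          _ = 2 ^ S.card * (2 * Nat.card H) := by ring
          _ ≤ 2 ^ S.card * Nat.card H' := Nat.mul_le_mul_left _ h3
          _ ≤ _ := hS2

lemma gens (M : Type) [Group M] [Finite M] : ∃ S : Finset M,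
    Subgroup.closure (S : Set M) = ⊤ ∧ 2 ^ S.card ≤ Nat.card M := by
  obtain ⟨S, h1, h2⟩ := gens_aux M ⊥
  refine ⟨S, ?_, by simpa using h2⟩
  rw [eq_top_iff, ← h1, Subgroup.closure_le]
  intro y hy
  rcases hy with hy | hy
  · rw [SetLike.mem_coe, Subgroup.mem_bot] at hy
    rw [hy]
    exact Subgroup.one_mem _
  · exact Subgroup.subset_closure hy

end Gens

section Aut

variable {r : ℕ}

/-- the multiplicative automorphism -/
def toMulEquiv (m : Fin (r+1) → Fin (r+1) → Fin (r+1)) (hm : IsTab m)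
    (e : Equiv.Perm (Fin (r+1))) (he : ∀ a b, e (m a b) = m (e a) (e b)) :
    Cp m hm ≃* Cp m hm where
  toEquiv := e
  map_mul' := he

lemma aut_card (p : X r) (hm : IsTab p.1) (hr : 1 ≤ r) :
    {e : Equiv.Perm (Fin (r+1)) | act e p = p}.ncard ≤ (r + 1) ^ (Nat.log 2 r) := by
  classical
  obtain ⟨S, hS1, hS2⟩ := gens (Cp p.1 hm)ˣ
  rw [Nat.card_eq_fintype_card, card_units_Cp] at hS2
  have hlog : S.card ≤ Nat.log 2 r := Nat.le_log_of_pow_le (by norm_num) hS2
  have hmul : ∀ e : Equiv.Perm (Fin (r+1)), act e p = p → ∀ a b, e (p.1 a b) = p.1 (e a) (e b) := by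
    intro e he a b
    have h1 : (act e p).1 (e a) (e b) = p.1 (e a) (e b) := by rw [he]
    rw [← h1]
    show e (p.1 a b) = e (p.1 (e.symm (e a)) (e.symm (e b)))
    rw [e.symm_apply_apply, e.symm_apply_apply]
  have hinj : {e : Equiv.Perm (Fin (r+1)) | act e p = p}.ncard ≤
      (univ : Finset (S → Fin (r+1))).card := by
    rw [← Set.ncard_coe_finset]
    refine Set.ncard_le_ncard_of_injOn (fun e => fun s : S => e ((s : (Cp p.1 hm)ˣ) : Cp p.1 hm))
      (fun e _ => by simp) ?_ (Finset.finite_toSet _)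
    intro e he e' he' heq
    have hE := hmul e he
    have hE' := hmul e' he'
    set φ := (toMulEquiv p.1 hm e hE).toMonoidHom with hφ
    set φ' := (toMulEquiv p.1 hm e' hE').toMonoidHom with hφ'
    have h1 : Set.EqOn (Units.map φ) (Units.map φ') (S : Set (Cp p.1 hm)ˣ) := by
      intro s hs
      ext
      exact congrFun heq ⟨s, hs⟩
    have h2 := MonoidHom.eq_of_eqOn_dense hS1 h1
    ext x
    have h3 : ∀ y : Cp p.1 hm, (e y : Fin (r+1)) = e' y := by
      intro y
      rcases eq_zero_or_unit y with hy | ⟨u, hu⟩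
      · have h4 : (toMulEquiv p.1 hm e hE) (0 : Cp p.1 hm) = 0 := map_zero _
        have h5 : (toMulEquiv p.1 hm e' hE') (0 : Cp p.1 hm) = 0 := map_zero _
        rw [hy]
        exact h4.trans h5.symm
      · have h4 := congrArg (fun ψ : (Cp p.1 hm)ˣ →* (Cp p.1 hm)ˣ => ((ψ u : (Cp p.1 hm)ˣ) : Cp p.1 hm)) h2
        rw [← hu]
        exact h4
    rw [h3 x]
  refine hinj.trans ?_
  rw [Finset.card_univ, Fintype.card_fun, Fintype.card_fin, Fintype.card_coe]
  exact Nat.pow_le_pow_right (by omega) hlog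

/-- the labelled structures -/
def SS (r : ℕ) : Set (X r) := {p | IsQuo p ∧ FullP p}

lemma SS_act {p : X r} (hp : p ∈ SS r) (e : Equiv.Perm (Fin (r+1))) (he : e 0 = 0) :
    act e p ∈ SS r := by
  obtain ⟨⟨K, _, G, f, hs, h0, hf, hm, ha⟩, hF⟩ := hp
  refine ⟨⟨K, inferInstance, G, fun x => e (f x), ?_, ?_, ?_, ?_, ?_⟩, ?_⟩
  · exact e.surjective.comp hs
  · simp only; rw [h0, he]
  · intro x y
    rw [← hf]
    exact e.apply_eq_iff_eq
  · intro x y
    show e (f (x * y)) = e (p.1 (e.symm (e (f x))) (e.symm (e (f y))))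
    rw [e.symm_apply_apply, e.symm_apply_apply, hm]
  · intro x y
    show e '' p.2 (e.symm (e (f x))) (e.symm (e (f y))) = _
    rw [e.symm_apply_apply, e.symm_apply_apply, ha]
    ext z
    constructor
    · rintro ⟨w, ⟨g, hg, h, hh, rfl⟩, rfl⟩
      exact ⟨g, hg, h, hh, rfl⟩
    · rintro ⟨g, hg, h, hh, rfl⟩
      exact ⟨_, ⟨g, hg, h, hh, rfl⟩, rfl⟩
  · intro u hu x hx
    have h1 : ∀ a, p.1 (e.symm u) a = a := by
      intro a
      have h2 : e (p.1 (e.symm u) (e.symm (e a))) = e a := hu (e a)
      rw [e.symm_apply_apply] at h2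
      exact e.injective h2
    have hx' : (0 : Fin (r+1)) ∈ e '' p.2 (e.symm u) (e.symm x) := hx
    obtain ⟨w, hw, hw0⟩ := hx'
    have hw1 : w = 0 := e.injective (hw0.trans he.symm)
    subst hw1
    show e '' p.2 (e.symm u) (e.symm x) = Set.univ
    rw [hF _ h1 _ hw, Set.image_univ, e.range_eq_univ]

open Classical in
lemma classes_upper (hr : 1 ≤ r) : r.factorial * {C | ∃ p, p ∈ SS r ∧ C = Cm IsQuo p}.ncard ≤
    (r + 1) ^ (Nat.log 2 r) * (SS r).ncard := by
  have hfin : (SS r).Finite := Set.toFinite _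
  have h1 : {C | ∃ p, p ∈ SS r ∧ C = Cm IsQuo p} =
      ((hfin.toFinset.image (Cm IsQuo) : Finset (Set (X r))) : Set (Set (X r))) := by
    ext C
    simp only [Set.mem_ofPred_eq, coe_image, Set.Finite.coe_toFinset, Set.mem_image]
    constructor
    · rintro ⟨p, hp, rfl⟩; exact ⟨p, hp, rfl⟩
    · rintro ⟨p, hp, rfl⟩; exact ⟨p, hp, rfl⟩
  rw [h1, Set.ncard_coe_finset, Set.ncard_eq_toFinset_card _ hfin,
    Finset.card_eq_sum_card_image (Cm IsQuo) hfin.toFinset, mul_sum]
  set A := (r + 1) ^ (Nat.log 2 r) with hA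
  have key : ∀ C ∈ hfin.toFinset.image (Cm IsQuo), r.factorial ≤
      A * (hfin.toFinset.filter (fun q => Cm IsQuo q = C)).card := by
    intro C hC
    rw [mem_image] at hC
    obtain ⟨p, hp, rfl⟩ := hC
    rw [Set.Finite.mem_toFinset] at hp
    have htab : IsTab p.1 := by
      obtain ⟨⟨K, _, G, f, h⟩, -⟩ := hp
      exact Real.isTab (p := p) (K := K) (G := G) (f := f) h
    have hcard : r.factorial = (univ : Finset (Equiv.Perm (Fin r))).card := by
      rw [Finset.card_univ, Fintype.card_perm, Fintype.card_fin]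
    rw [hcard]
    set ext : Equiv.Perm (Fin r) → Equiv.Perm (Fin (r+1)) :=
      fun e => Equiv.Perm.decomposeFin.symm (0, e) with hext
    have hext0 : ∀ e, ext e 0 = 0 := fun e => Equiv.Perm.decomposeFin_symm_apply_zero 0 e
    have hexti : Function.Injective ext := by
      intro e e' h
      have := Equiv.Perm.decomposeFin.symm.injective h
      exact (Prod.mk.inj this).2
    have h2 : (univ : Finset (Equiv.Perm (Fin r))).card ≤
        A * ((univ : Finset (Equiv.Perm (Fin r))).image (fun e => act (ext e) p)).card := by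
      refine Finset.card_le_mul_card_image _ _ ?_
      intro q hq
      rw [mem_image] at hq
      obtain ⟨e0, -, rfl⟩ := hq
      refine le_trans ?_ (aut_card p htab hr)
      rw [← Set.ncard_coe_finset]
      refine Set.ncard_le_ncard_of_injOn (fun e => (ext e0)⁻¹ * ext e) ?_ ?_ (Set.toFinite _)
      · intro e he
        rw [Finset.mem_coe, mem_filter] at he
        show act ((ext e0)⁻¹ * ext e) p = p
        rw [act_mul, he.2, ← act_mul, inv_mul_cancel, act_one]
      · intro e _ e' _ h
        exact hexti (mul_left_cancel h)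
    refine h2.trans (Nat.mul_le_mul_left _ (card_le_card ?_))
    intro q hq
    rw [mem_image] at hq
    obtain ⟨e, -, rfl⟩ := hq
    rw [mem_filter, Set.Finite.mem_toFinset]
    exact ⟨SS_act hp _ (hext0 e), Cm_eq (((iso_iff _ _).2 ⟨_, rfl⟩ : Iso p (act (ext e) p)).symm)⟩
  calc r.factorial * (hfin.toFinset.image (Cm IsQuo)).card
      = ∑ _C ∈ hfin.toFinset.image (Cm IsQuo), r.factorial := by
        rw [sum_const, smul_eq_mul, mul_comm]
    _ ≤ _ := sum_le_sum key

end Aut

end Q257.HF
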