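import Pool.Agent.Q257.HF.Cls

/-!
Counting labelled structures.
-/

set_option autoImplicit false

namespace Q257.HF

open Finset

variable {r : ℕ}

/-- `r` is large -/
def Large (r : ℕ) : Prop := ∀ u : ℕ, r ≤ 24 * u → 2 * r ^ 4 * 3 ^ u ≤ 4 ^ u

lemma full_of (m : Fin (r+1) → Fin (r+1) → Fin (r+1)) (hm : IsTab m)
    (h : Fin (r+1) → Fin (r+1) → Set (Fin (r+1))) (hF : FullP (m, h)) :
    Full (F := Cp m hm) h := by
  intro e he
  exact hF hm.1.choose hm.1.choose_spec.2 e he

lemma table_ss (m : Fin (r+1) → Fin (r+1) → Fin (r+1)) (hm : IsTab m) :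
    {p : X r | p ∈ SS r ∧ p.1 = m}.ncard ≤
      {h : Cp m hm → Cp m hm → Set (Cp m hm) | Weak h ∧ Full h}.ncard := by
  refine Set.ncard_le_ncard_of_injOn (fun p : X r => p.2) ?_ ?_ (Set.toFinite _)
  · rintro p ⟨⟨⟨K, _, G, f, h⟩, hF⟩, rfl⟩
    have R : Real p K G f := h
    exact ⟨R.weak, full_of p.1 hm p.2 hF⟩
  · rintro p ⟨-, hp⟩ q ⟨-, hq⟩ h
    exact Prod.ext (hp.trans hq.symm) h

lemma table_hyp (m : Fin (r+1) → Fin (r+1) → Fin (r+1)) (hm : IsTab m) :
    {h : Cp m hm → Cp m hm → Set (Cp m hm) | Hyper h}.ncard ≤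
      {p : X r | IsHyp p ∧ p.1 = m}.ncard := by
  refine Set.ncard_le_ncard_of_injOn (fun h => ((m, h) : X r)) ?_ ?_ (Set.toFinite _)
  · intro h H
    exact ⟨isHyp_of m hm h H, rfl⟩
  · intro h _ h' _ e
    exact (Prod.mk.inj e).2

lemma table_le (hr : Large r) (m : Fin (r+1) → Fin (r+1) → Fin (r+1)) :
    {p : X r | p ∈ SS r ∧ p.1 = m}.ncard * 2 ^ (r / 6) ≤
      2 * r * {p : X r | IsHyp p ∧ p.1 = m}.ncard := by
  rcases Set.eq_empty_or_nonempty {p : X r | p ∈ SS r ∧ p.1 = m} with h | ⟨p, hp, hpm⟩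
  · rw [h]; simp
  · have hm : IsTab m := by
      obtain ⟨⟨K, _, G, f, h⟩, -⟩ := hp
      have R : Real p K G f := h
      rw [← hpm]
      exact R.isTab
    have h1 := table_ss m hm
    have h2 := table_hyp m hm
    have h3 := ratio (F := Cp m hm) (by rw [card_units_Cp]; exact hr)
    rw [card_units_Cp] at h3
    calc {p : X r | p ∈ SS r ∧ p.1 = m}.ncard * 2 ^ (r / 6)
        ≤ {h : Cp m hm → Cp m hm → Set (Cp m hm) | Weak h ∧ Full h}.ncard * 2 ^ (r / 6) :=
          Nat.mul_le_mul_right _ h1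
      _ ≤ _ := h3
      _ ≤ _ := Nat.mul_le_mul_left _ h2

lemma ncard_fiber (P : Set (X r)) :
    P.ncard = ∑ m : Fin (r+1) → Fin (r+1) → Fin (r+1), {p : X r | p ∈ P ∧ p.1 = m}.ncard := by
  classical
  have hfin : P.Finite := Set.toFinite _
  rw [Set.ncard_eq_toFinset_card _ hfin, Finset.card_eq_sum_card_fiberwise (f := Prod.fst)
    (t := (univ : Finset (Fin (r+1) → Fin (r+1) → Fin (r+1)))) (fun _ _ => by simp)]
  refine sum_congr rfl fun m _ => ?_
  rw [← Set.ncard_coe_finset]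
  congr 1
  ext p
  rw [Finset.mem_coe, mem_filter, Set.Finite.mem_toFinset]
  exact Iff.rfl

lemma ss_le (hr : Large r) : (SS r).ncard * 2 ^ (r / 6) ≤ 2 * r * {p : X r | IsHyp p}.ncard := by
  rw [ncard_fiber (SS r), ncard_fiber {p : X r | IsHyp p}, sum_mul, mul_sum]
  exact sum_le_sum fun m _ => table_le hr m

lemma exists_tab (hr : 1 ≤ r) : ∃ m : Fin (r+1) → Fin (r+1) → Fin (r+1), IsTab m := by
  classical
  have : NeZero r := ⟨by omega⟩
  let _ : Fintype (WithZero (Multiplicative (ZMod r))) :=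
    inferInstanceAs (Fintype (Option (Multiplicative (ZMod r))))
  have hcard : Fintype.card (Fin (r+1)) = Fintype.card (WithZero (Multiplicative (ZMod r))) := by
    have h1 : Fintype.card (WithZero (Multiplicative (ZMod r))) =
        Fintype.card (Multiplicative (ZMod r)) + 1 := Fintype.card_option
    rw [h1, Fintype.card_fin, Fintype.card_multiplicative, ZMod.card]
  set E0 := Fintype.equivOfCardEq hcard with hE0
  set E : Fin (r+1) ≃ WithZero (Multiplicative (ZMod r)) :=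
    E0.trans (Equiv.swap (E0 0) 0) with hE
  have h0 : E 0 = 0 := by rw [hE]; simp
  refine ⟨fun a b => E.symm (E a * E b), ⟨E.symm 1, ?_, ?_⟩, ?_, ?_, ?_, ?_, ?_⟩
  · intro h
    have h1 : (1 : WithZero (Multiplicative (ZMod r))) = E 0 := by rw [← h]; simp
    rw [h0] at h1
    exact one_ne_zero h1
  · intro a; simp
  · intro a b; simp only; rw [mul_comm]
  · intro a b c; simp only [Equiv.apply_symm_apply, mul_assoc]
  · intro a
    simp only [h0, zero_mul]
    rw [← h0, E.symm_apply_apply]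
  · intro a b ha hb h
    have h1 : E a * E b = E 0 := by rw [← h]; simp
    rw [h0, mul_eq_zero, ← h0] at h1
    rcases h1 with h1 | h1
    · exact ha (E.injective h1)
    · exact hb (E.injective h1)
  · intro a ha
    refine ⟨E.symm (E a)⁻¹, fun c => ?_⟩
    have h1 : E a ≠ 0 := by
      intro h
      rw [← h0] at h
      exact ha (E.injective h)
    simp only [Equiv.apply_symm_apply]
    rw [mul_inv_cancel₀ h1, one_mul, E.symm_apply_apply]

lemma hyp_many (hr1 : 1 ≤ r) (hr : Large r) :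
    2 ^ (r ^ 2 / 6) ≤ 2 * {p : X r | IsHyp p}.ncard := by
  obtain ⟨m, hm⟩ := exists_tab hr1
  have h1 := many (F := Cp m hm) (by rw [card_units_Cp]; exact hr)
  rw [card_units_Cp] at h1
  refine h1.trans (Nat.mul_le_mul_left _ ((table_hyp m hm).trans ?_))
  exact Set.ncard_le_ncard (fun p hp => hp.1) (Set.toFinite _)

end Q257.HF
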