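import Mathlib

/-!
Differences of elements of large multiplicative subgroups of finite fields.
-/

set_option autoImplicit false

namespace Q257.HF

open Finset

section PL

variable {K : Type} [Field K] [Fintype K] [DecidableEq K]

/-- incidence -/
def inc (p : K × K) (a b : K) : ℤ := if b = p.2 - a * p.1 then 1 else 0

omit [Fintype K] in
lemma inc_sq (p : K × K) (a b : K) : inc p a b * inc p a b = inc p a b := by
  unfold inc; split_ifs <;> simp

lemma sum_inc (p : K × K) : ∑ a : K, ∑ b : K, inc p a b = Fintype.card K := by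
  have : ∀ a : K, ∑ b : K, inc p a b = 1 := by
    intro a
    unfold inc
    rw [Finset.sum_ite_eq' univ (p.2 - a * p.1)]
    simp
  rw [sum_congr rfl (fun a _ => this a), sum_const, Finset.card_univ]
  simp

lemma sum_inc_two (p p' : K × K) (h : p ≠ p') :
    ∑ a : K, ∑ b : K, inc p a b * inc p' a b ≤ 1 := by
  have h1 : ∀ a : K, ∑ b : K, inc p a b * inc p' a b =
      if p.2 - a * p.1 = p'.2 - a * p'.1 then 1 else 0 := by
    intro a
    have : ∀ b : K, inc p a b * inc p' a b =
        if b = p.2 - a * p.1 then (if p.2 - a * p.1 = p'.2 - a * p'.1 then 1 else 0) else 0 := by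
      intro b
      unfold inc
      by_cases hb : b = p.2 - a * p.1
      · subst hb; simp
      · simp [hb]
    rw [sum_congr rfl (fun b _ => this b), Finset.sum_ite_eq' univ (p.2 - a * p.1)]
    simp
  rw [sum_congr rfl (fun a _ => h1 a), sum_boole]
  have h2 : (univ.filter (fun a : K => p.2 - a * p.1 = p'.2 - a * p'.1)).card ≤ 1 := by
    rw [card_le_one]
    intro a ha b hb
    rw [mem_filter] at ha hb
    have e1 := ha.2
    have e2 := hb.2
    by_contra hab
    have e3 : (a - b) * (p.1 - p'.1) = 0 := by linear_combination -e1 + e2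
    rcases mul_eq_zero.1 e3 with h3 | h3
    · exact hab (sub_eq_zero.1 h3)
    · have h4 : p.1 = p'.1 := sub_eq_zero.1 h3
      have h5 : p.2 = p'.2 := by
        have := e1; rw [h4] at this; linear_combination this
      exact h (Prod.ext h4 h5)
  exact_mod_cast h2

/-- points and lines without incidences -/
lemma no_inc (P L : Finset (K × K)) (h : ∀ p ∈ P, ∀ l ∈ L, inc p l.1 l.2 = 0) :
    P.card * L.card ≤ Fintype.card K ^ 3 := by
  rcases P.eq_empty_or_nonempty with rfl | hP
  · simp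
  set q : ℤ := ((Fintype.card K : ℕ) : ℤ) with hq
  set N : K → K → ℤ := fun a b => ∑ p ∈ P, inc p a b with hN
  have hs1 : ∑ a : K, ∑ b : K, N a b = P.card * q := by
    have : ∑ a : K, ∑ b : K, N a b = ∑ p ∈ P, ∑ a : K, ∑ b : K, inc p a b := by
      rw [hN]
      rw [sum_comm (s := P)]
      refine sum_congr rfl fun a _ => ?_
      rw [sum_comm (s := P)]
    rw [this, sum_congr rfl (fun p _ => sum_inc p), sum_const, nsmul_eq_mul]
  have hs2 : ∑ a : K, ∑ b : K, N a b ^ 2 ≤ P.card * q + P.card * P.card := by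
    have e1 : ∑ a : K, ∑ b : K, N a b ^ 2 =
        ∑ p ∈ P, ∑ p' ∈ P, ∑ a : K, ∑ b : K, inc p a b * inc p' a b := by
      have : ∀ a b : K, N a b ^ 2 = ∑ p ∈ P, ∑ p' ∈ P, inc p a b * inc p' a b := by
        intro a b
        rw [sq, hN, sum_mul_sum]
      rw [sum_congr rfl (fun a _ => sum_congr rfl (fun b _ => this a b))]
      calc ∑ a : K, ∑ b : K, ∑ p ∈ P, ∑ p' ∈ P, inc p a b * inc p' a b
          = ∑ a : K, ∑ p ∈ P, ∑ b : K, ∑ p' ∈ P, inc p a b * inc p' a b :=
            sum_congr rfl fun a _ => sum_comm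
        _ = ∑ p ∈ P, ∑ a : K, ∑ b : K, ∑ p' ∈ P, inc p a b * inc p' a b := sum_comm
        _ = ∑ p ∈ P, ∑ a : K, ∑ p' ∈ P, ∑ b : K, inc p a b * inc p' a b :=
            sum_congr rfl fun p _ => sum_congr rfl fun a _ => sum_comm
        _ = ∑ p ∈ P, ∑ p' ∈ P, ∑ a : K, ∑ b : K, inc p a b * inc p' a b :=
            sum_congr rfl fun p _ => sum_comm
    rw [e1]
    have e2 : ∀ p ∈ P, ∑ p' ∈ P, ∑ a : K, ∑ b : K, inc p a b * inc p' a b ≤ q + P.card := by
      intro p hp
      rw [← add_sum_erase P _ hp]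
      refine add_le_add ?_ ?_
      · rw [sum_congr rfl (fun a _ => sum_congr rfl (fun b _ => inc_sq p a b)), sum_inc]
      · refine (sum_le_sum (g := fun _ => (1 : ℤ)) (fun p' hp' => ?_)).trans ?_
        · exact sum_inc_two p p' (ne_of_mem_erase hp').symm
        · rw [sum_const, nsmul_eq_mul, mul_one]
          exact_mod_cast card_le_card (erase_subset _ _)
    refine (sum_le_sum e2).trans (le_of_eq ?_)
    rw [sum_const, nsmul_eq_mul]
    ring
  have hs3 : ∑ a : K, ∑ b : K, (q * N a b - P.card) ^ 2 ≤ q ^ 3 * P.card := by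
    have e1 : ∀ a b : K, (q * N a b - P.card) ^ 2 =
        q ^ 2 * N a b ^ 2 - 2 * q * P.card * N a b + (P.card : ℤ) ^ 2 := by
      intro a b; ring
    rw [sum_congr rfl (fun a _ => sum_congr rfl (fun b _ => e1 a b))]
    simp only [sum_add_distrib, sum_sub_distrib, ← mul_sum, sum_const, Finset.card_univ,
      nsmul_eq_mul]
    rw [hs1, ← hq]
    nlinarith [hs2, sq_nonneg q]
  have hs4 : (L.card : ℤ) * (P.card : ℤ) ^ 2 ≤ ∑ a : K, ∑ b : K, (q * N a b - P.card) ^ 2 := by
    have e1 : ∑ l ∈ L, (q * N l.1 l.2 - P.card) ^ 2 = (L.card : ℤ) * (P.card : ℤ) ^ 2 := by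
      have : ∀ l ∈ L, (q * N l.1 l.2 - P.card) ^ 2 = (P.card : ℤ) ^ 2 := by
        intro l hl
        have : N l.1 l.2 = 0 := sum_eq_zero (fun p hp => h p hp l hl)
        rw [this]; ring
      rw [sum_congr rfl this, sum_const, nsmul_eq_mul]
    rw [← e1, ← Finset.sum_product']
    exact sum_le_sum_of_subset_of_nonneg (fun l _ => by simp) (fun _ _ _ => sq_nonneg _)
  have hPpos : (0 : ℤ) < P.card := by exact_mod_cast hP.card_pos
  have h5 : (L.card : ℤ) * (P.card : ℤ) ^ 2 ≤ q ^ 3 * P.card := hs4.trans hs3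
  have h6 : ((P.card : ℤ) * L.card) ≤ q ^ 3 := by
    have : (P.card : ℤ) * L.card * P.card ≤ q ^ 3 * P.card := by
      calc (P.card : ℤ) * L.card * P.card = (L.card : ℤ) * (P.card : ℤ) ^ 2 := by ring
        _ ≤ _ := h5
    exact le_of_mul_le_mul_right this hPpos
  rw [hq] at h6
  exact_mod_cast h6

/-- no solutions of `y = a x + c b` in a set `A` -/
lemma no_sol (A : Finset K) (c : K) (hc : c ≠ 0)
    (h : ∀ x ∈ A, ∀ y ∈ A, ∀ a ∈ A, ∀ b ∈ A, y - a * x ≠ c * b) :
    A.card ^ 4 ≤ Fintype.card K ^ 3 := by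
  have h1 := no_inc (A ×ˢ A) (A ×ˢ (A.image (fun b => c * b))) (by
    rintro ⟨x, y⟩ hp ⟨a, b'⟩ hl
    rw [mem_product] at hp hl
    obtain ⟨hx, hy⟩ := hp
    obtain ⟨ha, hb'⟩ := hl
    rw [mem_image] at hb'
    obtain ⟨b, hb, rfl⟩ := hb'
    unfold inc
    rw [if_neg]
    exact fun e => h x hx y hy a ha b hb e.symm)
  rw [card_product, card_product, card_image_of_injective _ (mul_right_injective₀ hc)] at h1
  calc A.card ^ 4 = A.card * A.card * (A.card * A.card) := by ring
    _ ≤ _ := h1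

end PL

end Q257.HF
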