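import Pool.Agent.Q257.HF.Orb

/-!
Hyperadditions on a finite commutative group with zero.
-/

set_option autoImplicit false

namespace Q257.HF

open Finset

variable {F : Type} [CommGroupWithZero F]

/-- some of the axioms of a hyperaddition -/
structure Weak (h : F → F → Set F) : Prop where
  comm : ∀ a b, h a b = h b a
  zero : ∀ a, h 0 a = {a}
  neg : ∀ a, ∃! b, (0 : F) ∈ h a b
  rev : ∀ a b c d, a ∈ h b c → (0 : F) ∈ h b d → c ∈ h a d
  dist : ∀ a b c, (fun x => a * x) '' h b c = h (a * b) (a * c)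

/-- the axioms of a hyperaddition -/
structure Hyper (h : F → F → Set F) : Prop extends Weak h where
  ne : ∀ a b, (h a b).Nonempty
  assoc : ∀ a b c, (⋃ x ∈ h a b, h x c) = ⋃ x ∈ h b c, h a x

/-- `1 - 1` is everything -/
def Full (h : F → F → Set F) : Prop := ∀ e, (0 : F) ∈ h 1 e → h 1 e = Set.univ

section Upper

variable {h : F → F → Set F} (W : Weak h) {e : Fˣ} (he : (0 : F) ∈ h 1 e)

include W

lemma Weak.mul_mem (l : F) {a b c : F} (hc : c ∈ h a b) : l * c ∈ h (l * a) (l * b) := by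
  rw [← W.dist l a b]
  exact ⟨c, hc, rfl⟩

include he

lemma Weak.sq : e * e = 1 := by
  have h1 := W.mul_mem (e : F) he
  rw [mul_zero, mul_one] at h1
  have h2 : (0 : F) ∈ h (e : F) 1 := by rw [W.comm]; exact he
  have h3 := (W.neg (e : F)).unique h1 h2
  ext
  rw [Units.val_mul]
  exact h3

lemma Weak.neg_mem (x : F) : (0 : F) ∈ h x (e * x) := by
  have h1 := W.mul_mem x he
  rw [mul_zero, mul_one, mul_comm x] at h1
  exact h1

lemma Weak.neg_iff (x y : F) : (0 : F) ∈ h x y ↔ y = e * x := by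
  constructor
  · intro hy
    exact (W.neg x).unique hy (W.neg_mem he x)
  · rintro rfl
    exact W.neg_mem he x

lemma Weak.mk_iff {x y z x' y' z' : Fˣ} (hxy : mk3 x y z = mk3 x' y' z')
    (hm : ((e * z : Fˣ) : F) ∈ h x y) : ((e * z' : Fˣ) : F) ∈ h x' y' := by
  refine inv_of (fun x y z : Fˣ => ((e * z : Fˣ) : F) ∈ h x y) ?_ ?_ ?_ hxy hm
  · intro l x y z hm
    have h1 := W.mul_mem (l : F) hm
    have e1 : ((e * (l * z) : Fˣ) : F) = l * ((e * z : Fˣ) : F) := by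
      push_cast; rw [mul_left_comm]
    rw [e1, Units.val_mul, Units.val_mul]
    exact h1
  · intro x y z hm
    rw [W.comm]
    exact hm
  · intro x y z hm
    have h1 := W.rev _ _ _ _ hm (W.neg_mem he x)
    have h2 := W.mul_mem (e : F) h1
    have h3 : (e : F) * e = 1 := by
      rw [← Units.val_mul, W.sq he, Units.val_one]
    have e1 : (e : F) * ((e * z : Fˣ) : F) = z := by
      rw [Units.val_mul, ← mul_assoc, h3, one_mul]
    have e2 : (e : F) * ((e : F) * x) = x := by rw [← mul_assoc, h3, one_mul]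
    rw [e1, e2, W.comm] at h2
    rw [Units.val_mul]
    exact h2

end Upper

/-- the set of classes of a hyperaddition -/
def code (e : Fˣ) (h : F → F → Set F) : Set (Orb Fˣ) :=
  {t | ∃ x y z : Fˣ, t = mk3 x y z ∧ ((e * z : Fˣ) : F) ∈ h x y}

lemma code_iff {h : F → F → Set F} (W : Weak h) {e : Fˣ} (he : (0 : F) ∈ h 1 e) (x y z : Fˣ) :
    mk3 x y z ∈ code e h ↔ ((e * z : Fˣ) : F) ∈ h x y := by
  constructor
  · rintro ⟨x', y', z', h1, h2⟩
    exact W.mk_iff he h1.symm h2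
  · intro hm
    exact ⟨x, y, z, rfl, hm⟩

lemma code_inj {h h' : F → F → Set F} (W : Weak h) (W' : Weak h') {e : Fˣ}
    (he : (0 : F) ∈ h 1 e) (he' : (0 : F) ∈ h' 1 e) (hc : code e h = code e h') : h = h' := by
  funext x y
  by_cases hx : x = 0
  · rw [hx, W.zero, W'.zero]
  by_cases hy : y = 0
  · rw [hy, W.comm, W'.comm, W.zero, W'.zero]
  ext w
  by_cases hw : w = 0
  · rw [hw, W.neg_iff he, W'.neg_iff he']
  · obtain ⟨x, rfl⟩ : ∃ u : Fˣ, (u : F) = x := ⟨Units.mk0 x hx, rfl⟩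
    obtain ⟨y, rfl⟩ : ∃ u : Fˣ, (u : F) = y := ⟨Units.mk0 y hy, rfl⟩
    obtain ⟨w, rfl⟩ : ∃ u : Fˣ, (u : F) = w := ⟨Units.mk0 w hw, rfl⟩
    have h1 := code_iff W he x y (e * w)
    have h2 := code_iff W' he' x y (e * w)
    rw [← mul_assoc, W.sq he, one_mul] at h1 h2
    rw [← h1, ← h2, hc]

variable [Fintype F] [DecidableEq F]

lemma upper_e (e : Fˣ) : {h : F → F → Set F | Weak h ∧ (0 : F) ∈ h 1 e ∧ h 1 e = Set.univ}.ncard *
    2 ^ (Fintype.card Fˣ / 6) ≤ 2 ^ Fintype.card (Orb Fˣ) := by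
  classical
  set Row : Finset (Orb Fˣ) := (univ : Finset Fˣ).image (fun c => mk3 1 e c) with hRow
  have hcard : Fintype.card Fˣ ≤ 6 * Row.card := by
    rw [← Finset.card_univ, hRow]
    refine Finset.card_le_mul_card_image _ 6 (fun t _ => ?_)
    convert fiber_le (1 : Fˣ) e t
  have h1 : {h : F → F → Set F | Weak h ∧ (0 : F) ∈ h 1 e ∧ h 1 e = Set.univ}.ncard ≤
      (Finset.Icc Row (univ : Finset (Orb Fˣ))).card := by
    rw [← Set.ncard_coe_finset]
    refine Set.ncard_le_ncard_of_injOn (fun h => (code e h).toFinset) ?_ ?_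
      (Finset.finite_toSet _)
    · rintro h ⟨W, he, hu⟩
      rw [Finset.mem_coe, Finset.mem_Icc]
      refine ⟨?_, subset_univ _⟩
      intro t ht
      rw [hRow, mem_image] at ht
      obtain ⟨c, -, rfl⟩ := ht
      rw [Set.mem_toFinset, code_iff W he, Units.val_one, hu]
      trivial
    · rintro h ⟨W, he, hu⟩ h' ⟨W', he', hu'⟩ heq
      exact code_inj W W' he he' (Set.toFinset_inj.1 heq)
  rw [Finset.card_Icc_finset (subset_univ _), Finset.card_univ] at h1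
  have h2 : Row.card ≤ Fintype.card (Orb Fˣ) := Finset.card_le_univ _
  calc {h : F → F → Set F | Weak h ∧ (0 : F) ∈ h 1 e ∧ h 1 e = Set.univ}.ncard *
      2 ^ (Fintype.card Fˣ / 6)
      ≤ 2 ^ (Fintype.card (Orb Fˣ) - Row.card) * 2 ^ Row.card :=
        Nat.mul_le_mul h1 (Nat.pow_le_pow_right (by norm_num) (by omega))
    _ = 2 ^ Fintype.card (Orb Fˣ) := by rw [← pow_add]; congr 1; omega

/-- few hyperadditions with `1 - 1` everything -/
lemma upper : {h : F → F → Set F | Weak h ∧ Full h}.ncard * 2 ^ (Fintype.card Fˣ / 6) ≤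
    Fintype.card Fˣ * 2 ^ Fintype.card (Orb Fˣ) := by
  classical
  have h1 : {h : F → F → Set F | Weak h ∧ Full h} ⊆
      ⋃ e ∈ (univ : Finset Fˣ), {h : F → F → Set F | Weak h ∧ (0 : F) ∈ h 1 e ∧ h 1 e = Set.univ} := by
    rintro h ⟨W, hF⟩
    obtain ⟨e, he, -⟩ := W.neg 1
    have he0 : e ≠ 0 := by
      rintro rfl
      have : (0 : F) ∈ h 1 0 := he
      rw [W.comm, W.zero] at this
      exact zero_ne_one this
    rw [Set.mem_iUnion₂]
    exact ⟨Units.mk0 e he0, mem_univ _, W, he, hF e he⟩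
  have h2 : {h : F → F → Set F | Weak h ∧ Full h}.ncard ≤ ∑ e : Fˣ,
      {h : F → F → Set F | Weak h ∧ (0 : F) ∈ h 1 e ∧ h 1 e = Set.univ}.ncard := by
    refine (Set.ncard_le_ncard h1 (Set.toFinite _)).trans ?_
    exact Finset.set_ncard_biUnion_le _ _
  calc _ ≤ (∑ e : Fˣ, {h : F → F → Set F | Weak h ∧ (0 : F) ∈ h 1 e ∧
        h 1 e = Set.univ}.ncard) * 2 ^ (Fintype.card Fˣ / 6) := Nat.mul_le_mul_right _ h2
    _ = ∑ e : Fˣ, {h : F → F → Set F | Weak h ∧ (0 : F) ∈ h 1 e ∧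
        h 1 e = Set.univ}.ncard * 2 ^ (Fintype.card Fˣ / 6) := by rw [sum_mul]
    _ ≤ ∑ _e : Fˣ, 2 ^ Fintype.card (Orb Fˣ) := sum_le_sum (fun e _ => upper_e e)
    _ = _ := by rw [sum_const, Finset.card_univ, smul_eq_mul]

/-- the hyperaddition of a set of classes, with `-x = x` -/
def hyp (f : Orb Fˣ → Bool) (x y : F) : Set F :=
  {z | (x = 0 ∧ z = y) ∨ (x ≠ 0 ∧ y = 0 ∧ z = x) ∨
    (x ≠ 0 ∧ y ≠ 0 ∧ z = 0 ∧ x = y) ∨
    ∃ a b c : Fˣ, (a : F) = x ∧ (b : F) = y ∧ (c : F) = z ∧ f (mk3 a b c) = true}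

omit [Fintype F] [DecidableEq F] in
lemma hyp_zero (f : Orb Fˣ → Bool) (y : F) : hyp f 0 y = {y} := by
  ext z
  simp [hyp]

omit [Fintype F] [DecidableEq F] in
lemma hyp_comm (f : Orb Fˣ → Bool) (x y : F) : hyp f x y = hyp f y x := by
  have key : ∀ x y : F, hyp f x y ⊆ hyp f y x := by
    intro x y z hz
    rcases hz with ⟨h1, h2⟩ | ⟨h1, h2, h3⟩ | ⟨h1, h2, h3, h4⟩ | ⟨a, b, c, h1, h2, h3, h4⟩
    · by_cases hy : y = 0
      · exact Or.inl ⟨hy, by rw [h2, hy, h1]⟩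
      · exact Or.inr (Or.inl ⟨hy, h1, h2⟩)
    · exact Or.inl ⟨h2, h3⟩
    · exact Or.inr (Or.inr (Or.inl ⟨h2, h1, h3, h4.symm⟩))
    · exact Or.inr (Or.inr (Or.inr ⟨b, a, c, h2, h1, h3, by rw [mk3_swap12]; exact h4⟩))
  exact Set.Subset.antisymm (key x y) (key y x)

omit [Fintype F] [DecidableEq F] in
lemma hyp_units (f : Orb Fˣ → Bool) (a b c : Fˣ) : (c : F) ∈ hyp f a b ↔ f (mk3 a b c) = true := by
  constructor
  · rintro (⟨h1, h2⟩ | ⟨h1, h2, h3⟩ | ⟨h1, h2, h3, h4⟩ | ⟨a', b', c', h1, h2, h3, h4⟩)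
    · exact absurd h1 a.ne_zero
    · exact absurd h2 b.ne_zero
    · exact absurd h3 c.ne_zero
    · rw [Units.val_inj] at h1 h2 h3
      rw [← h1, ← h2, ← h3]
      exact h4
  · intro h
    exact Or.inr (Or.inr (Or.inr ⟨a, b, c, rfl, rfl, rfl, h⟩))

omit [Fintype F] [DecidableEq F] in
lemma hyp_neg (f : Orb Fˣ → Bool) (x y : F) : (0 : F) ∈ hyp f x y ↔ y = x := by
  constructor
  · rintro (⟨h1, h2⟩ | ⟨h1, h2, h3⟩ | ⟨h1, h2, h3, h4⟩ | ⟨a', b', c', h1, h2, h3, h4⟩)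
    · rw [h1, h2]
    · exact absurd h3.symm h1
    · exact h4.symm
    · exact absurd h3 c'.ne_zero
  · rintro rfl
    by_cases hy : y = 0
    · exact Or.inl ⟨hy, hy.symm⟩
    · exact Or.inr (Or.inr (Or.inl ⟨hy, hy, rfl, rfl⟩))

/-- nonzero or zero -/
lemma eq_zero_or_unit {F : Type} [CommGroupWithZero F] (x : F) : x = 0 ∨ ∃ u : Fˣ, (u : F) = x := by
  by_cases hx : x = 0
  · exact Or.inl hx
  · exact Or.inr ⟨Units.mk0 x hx, rfl⟩

omit [Fintype F] [DecidableEq F] in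
lemma hyp_mul (f : Orb Fˣ → Bool) (u : Fˣ) {b c x : F} (hx : x ∈ hyp f b c) :
    (u : F) * x ∈ hyp f (u * b) (u * c) := by
  have hu : (u : F) ≠ 0 := u.ne_zero
  rcases hx with ⟨h1, h2⟩ | ⟨h1, h2, h3⟩ | ⟨h1, h2, h3, h4⟩ | ⟨a', b', c', h1, h2, h3, h4⟩
  · exact Or.inl ⟨by rw [h1, mul_zero], by rw [h2]⟩
  · exact Or.inr (Or.inl ⟨mul_ne_zero hu h1, by rw [h2, mul_zero], by rw [h3]⟩)
  · exact Or.inr (Or.inr (Or.inl ⟨mul_ne_zero hu h1, mul_ne_zero hu h2, by rw [h3, mul_zero],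
      by rw [h4]⟩))
  · exact Or.inr (Or.inr (Or.inr ⟨u * a', u * b', u * c', by rw [Units.val_mul, h1],
      by rw [Units.val_mul, h2], by rw [Units.val_mul, h3], by rw [mk3_scale]; exact h4⟩))

omit [Fintype F] [DecidableEq F] in
lemma hyp_hyper (f : Orb Fˣ → Bool) (hf : Good f) : Hyper (hyp f) := by
  have hz : ∀ x : F, hyp f x 0 = {x} := fun x => by rw [hyp_comm, hyp_zero]
  have hne : ∀ a b : F, (hyp f a b).Nonempty := by
    intro a b
    rcases eq_zero_or_unit a with rfl | ⟨a, rfl⟩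
    · rw [hyp_zero]; exact ⟨b, rfl⟩
    rcases eq_zero_or_unit b with rfl | ⟨b, rfl⟩
    · rw [hz]; exact ⟨_, rfl⟩
    obtain ⟨u, h1, -⟩ := hf a b a b
    exact ⟨u, (hyp_units f a b u).2 h1⟩
  have cyc : ∀ a b c : Fˣ, mk3 a b c = mk3 b c a := fun a b c => by
    rw [mk3_swap12 b a c, mk3_swap23 b c a]
  refine ⟨⟨hyp_comm f, hyp_zero f, ?_, ?_, ?_⟩, hne, ?_⟩
  · intro a
    exact ⟨a, (hyp_neg f a a).2 rfl, fun b hb => (hyp_neg f a b).1 hb⟩
  · intro a b c d h1 h2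
    rw [hyp_neg] at h2
    subst h2
    rcases eq_zero_or_unit d with rfl | ⟨d, rfl⟩
    · rw [hyp_zero] at h1
      rw [hz]
      exact h1.symm
    rcases eq_zero_or_unit c with rfl | ⟨c, rfl⟩
    · rw [hz] at h1
      rw [h1, hyp_neg]
    rcases eq_zero_or_unit a with rfl | ⟨a, rfl⟩
    · rw [hyp_neg] at h1
      rw [hyp_zero, h1]
      rfl
    rw [hyp_units] at h1 ⊢
    rw [cyc a d c]
    exact h1
  · intro a b c
    rcases eq_zero_or_unit a with rfl | ⟨a, rfl⟩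
    · rw [zero_mul, zero_mul, hyp_zero]
      ext z
      constructor
      · rintro ⟨x, -, rfl⟩
        simp
      · intro hz0
        obtain ⟨x, hx⟩ := hne b c
        refine ⟨x, hx, ?_⟩
        rw [hz0]
        simp
    · ext z
      constructor
      · rintro ⟨x, hx, rfl⟩
        exact hyp_mul f a hx
      · intro hz0
        have h1 := hyp_mul f a⁻¹ hz0
        rw [Units.inv_mul_cancel_left, Units.inv_mul_cancel_left] at h1
        exact ⟨_, h1, by simp⟩
  · have key : ∀ a b c w : Fˣ, ∃ u : Fˣ, (u : F) ∈ hyp f a b ∧ (w : F) ∈ hyp f u c := by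
      intro a b c w
      obtain ⟨u, h1, h2⟩ := hf a b c w
      exact ⟨u, (hyp_units f a b u).2 h1, (hyp_units f u c w).2 (by rw [cyc u c w]; exact h2)⟩
    intro a b c
    rcases eq_zero_or_unit a with rfl | ⟨a, rfl⟩
    · rw [hyp_zero]
      simp only [Set.mem_singleton_iff, Set.iUnion_iUnion_eq_left, hyp_zero]
      ext z
      simp
    rcases eq_zero_or_unit b with rfl | ⟨b, rfl⟩
    · rw [hyp_zero, hz]
      simp
    rcases eq_zero_or_unit c with rfl | ⟨c, rfl⟩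
    · rw [hz]
      simp only [Set.mem_singleton_iff, Set.iUnion_iUnion_eq_left, hz]
      ext z
      simp
    ext w
    rw [Set.mem_iUnion₂, Set.mem_iUnion₂]
    rcases eq_zero_or_unit w with rfl | ⟨w, rfl⟩
    · constructor
      · rintro ⟨x, hx, h0⟩
        rw [hyp_neg] at h0
        subst h0
        rw [hyp_units] at hx
        refine ⟨a, ?_, (hyp_neg f _ _).2 rfl⟩
        rw [hyp_units, ← cyc a b c]
        exact hx
      · rintro ⟨x, hx, h0⟩
        rw [hyp_neg] at h0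
        subst h0
        rw [hyp_units] at hx
        refine ⟨c, ?_, (hyp_neg f _ _).2 rfl⟩
        rw [hyp_units, cyc a b c]
        exact hx
    · constructor
      · intro _
        obtain ⟨u, h1, h2⟩ := key b c a w
        refine ⟨u, h1, ?_⟩
        rw [hyp_comm]
        exact h2
      · intro _
        obtain ⟨u, h1, h2⟩ := key a b c w
        exact ⟨u, h1, h2⟩

/-- many hyperadditions -/
lemma lower (hr : ∀ u : ℕ, Fintype.card Fˣ ≤ 24 * u →
    2 * Fintype.card Fˣ ^ 4 * 3 ^ u ≤ 4 ^ u) :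
    2 ^ Fintype.card (Orb Fˣ) ≤ 2 * {h : F → F → Set F | Hyper h}.ncard := by
  classical
  have h1 := good_half (M := Fˣ) hr
  refine h1.trans (Nat.mul_le_mul_left _ ?_)
  rw [← Set.ncard_coe_finset]
  refine Set.ncard_le_ncard_of_injOn hyp ?_ ?_ (Set.toFinite _)
  · intro f hf
    rw [Finset.mem_coe, mem_filter] at hf
    exact hyp_hyper f hf.2
  · intro f _ g _ hfg
    funext t
    obtain ⟨x, y, z, rfl⟩ := mk3_surj t
    have h2 := hyp_units f x y z
    have h3 := hyp_units g x y z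
    rw [hfg] at h2
    rw [h3] at h2
    cases hg : g (mk3 x y z) <;> cases hf : f (mk3 x y z) <;> simp_all

/-- hyperadditions with `1 - 1` everything are rare -/
lemma ratio (hr : ∀ u : ℕ, Fintype.card Fˣ ≤ 24 * u →
    2 * Fintype.card Fˣ ^ 4 * 3 ^ u ≤ 4 ^ u) :
    {h : F → F → Set F | Weak h ∧ Full h}.ncard * 2 ^ (Fintype.card Fˣ / 6) ≤
      2 * Fintype.card Fˣ * {h : F → F → Set F | Hyper h}.ncard := by
  have h1 := upper (F := F)
  have h2 := lower (F := F) hr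
  calc _ ≤ Fintype.card Fˣ * 2 ^ Fintype.card (Orb Fˣ) := h1
    _ ≤ Fintype.card Fˣ * (2 * {h : F → F → Set F | Hyper h}.ncard) := Nat.mul_le_mul_left _ h2
    _ = _ := by ring

/-- there are very many hyperadditions -/
lemma many (hr : ∀ u : ℕ, Fintype.card Fˣ ≤ 24 * u →
    2 * Fintype.card Fˣ ^ 4 * 3 ^ u ≤ 4 ^ u) :
    2 ^ (Fintype.card Fˣ ^ 2 / 6) ≤ 2 * {h : F → F → Set F | Hyper h}.ncard := by
  have h2 := lower (F := F) hr
  have h3 := card_orb (M := Fˣ)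
  refine le_trans (Nat.pow_le_pow_right (by norm_num) ?_) h2
  omega

end Q257.HF
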