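import Mathlib

/-!
A subgroup `G` of finite index in the multiplicative group of an infinite field `K` satisfies
`G - G = K` (Bergelson-Shapiro, Turnwald).
-/

set_option autoImplicit false

namespace Q257.HF

open Finset

lemma ramsey_seq {K C : Type} [Finite C] (χ : K → K → C) : ∀ n : ℕ, ∀ S : Set K, S.Infinite →
    ∃ (t : Fin n → K) (c : Fin n → C), (∀ i, t i ∈ S) ∧
      ∀ i j, i < j → χ (t i) (t j) = c i ∧ t i ≠ t j := by
  intro n
  induction n with
  | zero => intro S _; exact ⟨Fin.elim0, Fin.elim0, fun i => i.elim0, fun i => i.elim0⟩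
  | succ n ih =>
    intro S hS
    obtain ⟨x, hx⟩ := hS.nonempty
    have h1 : (S \ {x}).Infinite := hS.sdiff (Set.finite_singleton x)
    obtain ⟨c, hc⟩ : ∃ c, {y | y ∈ S \ {x} ∧ χ x y = c}.Infinite := by
      by_contra hcon
      push Not at hcon
      apply h1
      have : S \ {x} ⊆ ⋃ c, {y | y ∈ S \ {x} ∧ χ x y = c} := by
        intro y hy
        rw [Set.mem_iUnion]
        exact ⟨χ x y, hy, rfl⟩
      exact (Set.finite_iUnion (fun c => hcon c)).subset this
    obtain ⟨t, c', ht, htc⟩ := ih _ hc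
    refine ⟨Fin.cons x t, Fin.cons c c', ?_, ?_⟩
    · intro i
      refine Fin.cases ?_ (fun i => ?_) i
      · simpa using hx
      · simpa using (ht i).1.1
    · intro i j hij
      induction i using Fin.cases with
      | zero =>
        induction j using Fin.cases with
        | zero => exact absurd hij (lt_irrefl _)
        | succ j =>
          have h2 := ht j
          simp only [Fin.cons_zero, Fin.cons_succ]
          exact ⟨h2.2, fun h => h2.1.2 h.symm⟩
      | succ i =>
        induction j using Fin.cases with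
        | zero => exact absurd hij (by simp)
        | succ j =>
          simp only [Fin.cons_succ]
          exact htc i j (by simpa using hij)

lemma ramsey {K C : Type} [Infinite K] [Fintype C] (χ : K → K → C) (m : ℕ) :
    ∃ (t : Fin m → K) (c : C), ∀ i j, i < j → χ (t i) (t j) = c ∧ t i ≠ t j := by
  classical
  obtain ⟨t, c, -, h⟩ := ramsey_seq χ (Fintype.card C * m) Set.univ Set.infinite_univ
  obtain ⟨x0⟩ : Nonempty K := inferInstance
  obtain ⟨y, -, hy⟩ := Finset.exists_le_card_fiber_of_mul_le_card_of_maps_to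
    (s := (univ : Finset (Fin (Fintype.card C * m)))) (t := (univ : Finset C)) (f := c) (n := m)
    (fun _ _ => mem_univ _) ⟨χ x0 x0, mem_univ _⟩ (by simp)
  set I := univ.filter (fun i => c i = y) with hI
  have hI2 : m ≤ I.card := hy
  refine ⟨fun i => t (I.orderEmbOfCardLe hI2 i), y, fun i j hij => ?_⟩
  have h1 := h (I.orderEmbOfCardLe hI2 i) (I.orderEmbOfCardLe hI2 j)
    ((I.orderEmbOfCardLe hI2).lt_iff_lt.2 hij)
  have h2 := I.orderEmbOfCardLe_mem hI2 i
  have h3 : ∀ a ∈ I, c a = y := fun a ha => by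
    rw [hI, mem_filter] at ha
    exact ha.2
  exact ⟨h1.1.trans (h3 _ h2), h1.2⟩

lemma box_arith (r D L : ℕ) (hL : L = D * (r + 1)) : r * (L + 1) ^ D < (r + 1) * L ^ D := by
  have h1 : (-2 : ℝ) ≤ -(1 / ((L : ℝ) + 1)) := by
    have : 1 / ((L : ℝ) + 1) ≤ 1 := by
      rw [div_le_one (by positivity)]; linarith [(Nat.cast_nonneg L : (0 : ℝ) ≤ L)]
    linarith
  have h2 := one_add_mul_le_pow h1 D
  have hL1 : (0 : ℝ) < (L : ℝ) + 1 := by positivity
  have h3 : (1 + -(1 / ((L : ℝ) + 1))) = L / (L + 1) := by field_simp; ring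
  rw [h3, div_pow] at h2
  have h4 : (1 : ℝ) + D * (-(1 / ((L : ℝ) + 1))) > r / (r + 1) := by
    have hr1 : (0 : ℝ) < (r : ℝ) + 1 := by positivity
    have h5 : (D : ℝ) / (L + 1) < 1 / (r + 1) := by
      rw [div_lt_div_iff₀ hL1 hr1]
      have : (L : ℝ) = D * (r + 1) := by exact_mod_cast hL
      rw [this]; linarith
    have h6 : (r : ℝ) / (r + 1) = 1 - 1 / (r + 1) := by field_simp; ring
    rw [h6]
    have h7 : (D : ℝ) * (-(1 / ((L : ℝ) + 1))) = -((D : ℝ) / (L + 1)) := by ring
    rw [h7]
    linarith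
  have h5 : (r : ℝ) / (r + 1) < L ^ D / (L + 1) ^ D := lt_of_lt_of_le h4 h2
  rw [div_lt_div_iff₀ (by positivity) (by positivity)] at h5
  have h6 : (r : ℝ) * (L + 1) ^ D < (r + 1) * L ^ D := by linarith
  exact_mod_cast h6

theorem inf_diff {K : Type} [Field K] [Infinite K] (G : Subgroup Kˣ) (r : ℕ)
    (f : K → Fin (r + 1)) (hs : Function.Surjective f) (h0 : f 0 = 0)
    (hf : ∀ x y : K, f x = f y ↔ ∃ g ∈ G, y = x * (g : K)) (c : K) (hc : c ≠ 0) :
    ∃ g ∈ G, ∃ h ∈ G, (g : K) - (h : K) = c := by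
  classical
  have hz : ∀ x : K, f x = 0 ↔ x = 0 := by
    intro x
    rw [← h0]
    constructor
    · intro h
      obtain ⟨g, -, hg⟩ := (hf 0 x).1 h.symm
      rw [hg, zero_mul]
    · rintro rfl; rfl
  obtain ⟨t, k0, ht⟩ := ramsey (fun x y : K => f (x - y)) (r + 1)
  obtain ⟨b, hb⟩ : ∃ b : Fin (r + 1) → K, ∀ k, f (b k) = k := ⟨fun k => (hs k).choose,
    fun k => (hs k).choose_spec⟩
  set J := Fin (r + 1) × Fin (r + 1) with hJ
  set v : J → K := fun j => b j.1 * c * (b k0)⁻¹ * t j.2 with hv
  set D := Fintype.card J with hD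
  set L := D * (r + 1) with hL
  obtain ⟨s, hs0⟩ := Infinite.exists_notMem_finset
    ((Fintype.piFinset (fun _ : J => range L)).image (fun n => -∑ j, (n j : K) * v j))
  set Phi : (J → ℕ) → K := fun n => s + ∑ j, (n j : K) * v j with hPhi
  set Box := Fintype.piFinset (fun _ : J => range L) with hBox
  have hne : ∀ n ∈ Box, Phi n ≠ 0 := by
    intro n hn h
    apply hs0
    rw [mem_image]
    exact ⟨n, hn, by rw [hPhi] at h; linear_combination -h⟩
  have hBcard : Box.card = L ^ D := by
    rw [hBox, Fintype.card_piFinset]; simp [hD]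
  have hB2card : (Fintype.piFinset (fun _ : J => range (L + 1))).card = (L + 1) ^ D := by
    rw [Fintype.card_piFinset]; simp [hD]
  have hr1 : 0 < r := by
    rcases Nat.eq_zero_or_pos r with h | h
    · exfalso
      subst h
      have h1 : f c = 0 := Subsingleton.elim (α := Fin 1) _ _
      exact hc ((hz c).1 h1)
    · exact h
  obtain ⟨k, hk, hkc⟩ : ∃ k ∈ (univ : Finset (Fin (r + 1))).erase 0,
      L ^ D ≤ r * (Box.filter (fun n => f (Phi n) = k)).card := by
    refine Finset.exists_le_of_sum_le (s := (univ : Finset (Fin (r + 1))).erase 0) ?_ ?_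
    · rw [← Finset.card_pos, card_erase_of_mem (mem_univ _), Finset.card_univ, Fintype.card_fin]
      omega
    · rw [sum_const, card_erase_of_mem (mem_univ _), Finset.card_univ, Fintype.card_fin,
        ← mul_sum, smul_eq_mul, Nat.add_sub_cancel]
      refine Nat.mul_le_mul_left _ ?_
      have h1 := Finset.card_eq_sum_card_fiberwise (f := fun n => f (Phi n)) (s := Box)
        (t := (univ : Finset (Fin (r + 1))).erase 0) (by
          intro n hn
          rw [Finset.mem_coe] at hn
          rw [Finset.mem_coe, mem_erase]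
          exact ⟨fun h => hne n hn ((hz _).1 h), mem_univ _⟩)
      rw [← h1, hBcard]
  set A := Box.filter (fun n => f (Phi n) = k) with hA
  have hlt : (Fintype.piFinset (fun _ : J => range (L + 1))).card <
      ((univ : Finset (Fin (r + 1))) ×ˢ A).card := by
    rw [hB2card, card_product, Finset.card_univ, Fintype.card_fin]
    have h1 := box_arith r D L hL
    have h2 : (r + 1) * L ^ D ≤ r * ((r + 1) * A.card) := by
      calc (r + 1) * L ^ D ≤ (r + 1) * (r * A.card) := Nat.mul_le_mul_left _ hkc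
        _ = _ := by ring
    have h3 : r * (L + 1) ^ D < r * ((r + 1) * A.card) := lt_of_lt_of_le h1 h2
    exact lt_of_mul_lt_mul_left h3 (Nat.zero_le _)
  obtain ⟨⟨i, n⟩, hin, ⟨j, n'⟩, hjn, hneq, heq⟩ :=
    Finset.exists_ne_map_eq_of_card_lt_of_maps_to hlt
      (f := fun p : Fin (r + 1) × (J → ℕ) => p.2 + Pi.single (k, p.1) 1) (by
        rintro ⟨i, n⟩ hin
        rw [Finset.mem_coe, mem_product] at hin
        rw [Finset.mem_coe, Fintype.mem_piFinset]
        intro a
        have h1 := hin.2
        rw [hA, mem_filter, hBox, Fintype.mem_piFinset] at h1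
        have h2 := h1.1 a
        rw [mem_range] at h2 ⊢
        simp only [Pi.add_apply]
        by_cases ha : a = (k, i)
        · subst ha
          have e1 : (Pi.single (k, i) 1 : J → ℕ) (k, i) = 1 := Pi.single_eq_same _ _
          have e2 : (Pi.single (k, (i, n).1) 1 : J → ℕ) (k, i) = 1 := e1
          rw [e2]
          exact Nat.succ_lt_succ h2
        · have e2 : (Pi.single (k, (i, n).1) 1 : J → ℕ) a = 0 := Pi.single_eq_of_ne ha _
          rw [e2, add_zero]
          exact Nat.lt_succ_of_lt h2)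
  rw [mem_product] at hin hjn
  have hPs : ∀ (n : J → ℕ) (a : J), Phi (n + Pi.single a 1) = Phi n + v a := by
    intro n a
    rw [hPhi]
    simp only [Pi.add_apply]
    have : ∀ j : J, ((n j + (Pi.single a 1 : J → ℕ) j : ℕ) : K) * v j =
        (n j : K) * v j + (if j = a then v a else 0) := by
      intro j
      by_cases hj : j = a
      · subst hj; rw [Pi.single_eq_same, if_pos rfl]; push_cast; ring
      · rw [Pi.single_eq_of_ne hj, if_neg hj]; simp
    rw [sum_congr rfl (fun j _ => this j), sum_add_distrib, Finset.sum_ite_eq' univ a]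
    simp only [mem_univ, if_true]
    ring
  have hPeq : Phi n + v (k, i) = Phi n' + v (k, j) := by
    rw [← hPs, ← hPs]
    exact congrArg Phi heq
  have hij : i ≠ j := by
    rintro rfl
    apply hneq
    have : n = n' := add_right_cancel heq
    rw [this]
  have hfn : f (Phi n) = k := (mem_filter.1 hin.2).2
  have hfn' : f (Phi n') = k := (mem_filter.1 hjn.2).2
  -- the final computation
  have key : ∀ (i j : Fin (r + 1)) (x x' : K), i < j → f x = k → f x' = k →
      x + v (k, i) = x' + v (k, j) → ∃ g ∈ G, ∃ h ∈ G, (g : K) - (h : K) = c := by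
    intro i j x x' hij hx hx' he
    have ht1 := ht i j hij
    have hd0 : b k0 ≠ 0 := by
      intro h
      have h1 : k0 = 0 := by rw [← hb k0, h, h0]
      rw [h1, hz] at ht1
      exact ht1.2 (sub_eq_zero.1 ht1.1)
    have hk0 : k ≠ 0 := (mem_erase.1 hk).1
    have hbk : b k ≠ 0 := by
      intro h
      exact hk0 (by rw [← hb k, h, h0])
    obtain ⟨g1, hg1, e1⟩ := (hf (b k0) (t i - t j)).1 (by rw [hb]; exact ht1.1.symm)
    obtain ⟨g2, hg2, e2⟩ := (hf (b k) x).1 (by rw [hb, hx])
    obtain ⟨g3, hg3, e3⟩ := (hf (b k) x').1 (by rw [hb, hx'])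
    refine ⟨g3 * g1⁻¹, G.mul_mem hg3 (G.inv_mem hg1), g2 * g1⁻¹,
      G.mul_mem hg2 (G.inv_mem hg1), ?_⟩
    have h1 : v (k, i) - v (k, j) = b k * c * g1 := by
      rw [hv]
      simp only
      rw [← mul_sub, e1]
      field_simp
    have h2 : b k * (c * g1) = b k * (g3 - g2) := by
      rw [← mul_assoc, ← h1, mul_sub, ← e2, ← e3]
      linear_combination he
    have h3 : c * g1 = g3 - g2 := mul_left_cancel₀ hbk h2
    have h4 : (g1 : K) ≠ 0 := g1.ne_zero
    rw [Units.val_mul, Units.val_mul, Units.val_inv_eq_inv_val, ← sub_mul, ← h3]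
    field_simp
  rcases lt_or_gt_of_ne hij with h | h
  · exact key i j _ _ h hfn hfn' hPeq
  · exact key j i _ _ h hfn' hfn hPeq.symm

end Q257.HF
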