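import Pool.Agent.Q257.HF.Cls

/-!
Quotients of finite fields: the class is determined by the order of the field; large fields.
-/

set_option autoImplicit false

namespace Q257.HF

open Finset

variable {r : ℕ}

/-- two subgroups of the same order of a finite cyclic group -/
lemma cyc_eq {M : Type} [Group M] [Finite M] [IsCyclic M] (H H' : Subgroup M)
    (h : Nat.card H = Nat.card H') : H = H' := by
  classical
  have := Fintype.ofFinite M
  have key : ∀ L : Subgroup M, Nat.card L = Nat.card H →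
      (L : Set M) = ((univ.filter (fun x : M => x ^ (Nat.card H) = 1) : Finset M) : Set M) := by
    intro L hL
    have hsub : (L : Set M).toFinset ⊆ univ.filter (fun x : M => x ^ (Nat.card H) = 1) := by
      intro x hx
      rw [Set.mem_toFinset] at hx
      rw [mem_filter]
      refine ⟨mem_univ _, ?_⟩
      rw [← hL]
      have h1 : (⟨x, hx⟩ : L) ^ Nat.card L = 1 := pow_card_eq_one'
      have h2 : (((⟨x, hx⟩ : L) ^ Nat.card L : L) : M) = ((1 : L) : M) := by rw [h1]
      rw [Subgroup.coe_pow, Subgroup.coe_one] at h2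
      exact h2
    have hle : (univ.filter (fun x : M => x ^ (Nat.card H) = 1)).card ≤ Nat.card H :=
      IsCyclic.card_pow_eq_one_le Nat.card_pos
    have hc : (L : Set M).toFinset.card = Nat.card H := by
      rw [← hL, Set.toFinset_card, Nat.card_eq_fintype_card]
      rfl
    have := Finset.eq_of_subset_of_card_le hsub (by rw [hc]; exact hle)
    rw [← this, Set.coe_toFinset]
  exact SetLike.coe_injective ((key H rfl).trans (key H' h.symm).symm)

section

variable {p : X r} {K : Type} [Field K] {G : Subgroup Kˣ} {f : K → Fin (r+1)}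

/-- the order of the group -/
lemma Real.card_mul (R : Real p K G f) [Finite K] : r * Nat.card G + 1 = Nat.card K := by
  classical
  have := Fintype.ofFinite K
  obtain ⟨hs, h0, hf, hm, ha⟩ := id R
  have h1 : ∀ a : Fin (r+1), a ≠ 0 → (univ.filter (fun x : K => f x = a)).card = Nat.card G := by
    intro a ha
    obtain ⟨y, rfl⟩ := hs a
    have hy : y ≠ 0 := fun h => ha ((R.zero_iff y).2 h)
    rw [Nat.card_eq_fintype_card, ← Finset.card_univ]
    symm
    refine Finset.card_bij (fun (g : G) _ => y * ((g : Kˣ) : K)) ?_ ?_ ?_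
    · intro g _
      rw [mem_filter]
      exact ⟨mem_univ _, ((hf _ _).2 ⟨g, g.2, rfl⟩).symm⟩
    · intro g _ g' _ h
      have := mul_left_cancel₀ hy h
      exact Subtype.ext (Units.ext this)
    · intro x hx
      rw [mem_filter] at hx
      obtain ⟨g, hg, e⟩ := (hf _ _).1 hx.2.symm
      exact ⟨⟨g, hg⟩, mem_univ _, e.symm⟩
  have h2 : (univ.filter (fun x : K => f x = 0)).card = 1 := by
    rw [card_eq_one]
    exact ⟨0, by ext x; simp [R.zero_iff]⟩
  have h3 := Finset.card_eq_sum_card_fiberwise (f := f) (s := (univ : Finset K))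
    (t := (univ : Finset (Fin (r+1)))) (fun _ _ => by simp)
  rw [Finset.card_univ, ← Nat.card_eq_fintype_card, ← add_sum_erase _ _ (mem_univ (0 : Fin (r+1))),
    h2, sum_congr rfl (fun a ha => h1 a (ne_of_mem_erase ha)), sum_const,
    card_erase_of_mem (mem_univ _), Finset.card_univ, Fintype.card_fin, smul_eq_mul] at h3
  rw [h3, Nat.add_sub_cancel]
  ring

/-- large finite fields -/
lemma Real.fin_diff (R : Real p K G f) [Finite K] (hr : 1 ≤ r) (hK : 16 * r ^ 4 < Nat.card K)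
    (c : K) (hc : c ≠ 0) : ∃ g ∈ G, ∃ h ∈ G, (g : K) - (h : K) = c := by
  classical
  have := Fintype.ofFinite K
  by_contra hcon
  push Not at hcon
  set A : Finset K := (univ : Finset G).image (fun g : G => ((g : Kˣ) : K)) with hA
  have hAc : A.card = Nat.card G := by
    rw [hA, card_image_of_injective _ (fun g g' h => Subtype.ext (Units.ext h)),
      Finset.card_univ, Nat.card_eq_fintype_card]
  have hAm : ∀ x ∈ A, ∃ g ∈ G, (g : K) = x := by
    intro x hx
    rw [hA, mem_image] at hx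
    obtain ⟨g, -, rfl⟩ := hx
    exact ⟨g, g.2, rfl⟩
  have h1 := no_sol A c hc (by
    intro x hx y hy a ha b hb h
    obtain ⟨gx, hgx, rfl⟩ := hAm x hx
    obtain ⟨gy, hgy, rfl⟩ := hAm y hy
    obtain ⟨ga, hga, rfl⟩ := hAm a ha
    obtain ⟨gb, hgb, rfl⟩ := hAm b hb
    refine hcon (gy * gb⁻¹) (G.mul_mem hgy (G.inv_mem hgb)) (ga * gx * gb⁻¹)
      (G.mul_mem (G.mul_mem hga hgx) (G.inv_mem hgb)) ?_
    have hne : (gb : K) ≠ 0 := gb.ne_zero
    rw [Units.val_mul, Units.val_mul, Units.val_mul, Units.val_inv_eq_inv_val, ← sub_mul, h]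
    field_simp)
  rw [hAc, ← Nat.card_eq_fintype_card] at h1
  have h2 := R.card_mul
  set q := Nat.card K with hq
  set n := Nat.card G with hn
  have hn1 : 1 ≤ n := Nat.card_pos
  have hrn : 1 ≤ r * n := Nat.one_le_iff_ne_zero.2 (by positivity)
  have h3 : q ≤ 2 * (r * n) := by omega
  have h4 : q ^ 4 ≤ 16 * r ^ 4 * n ^ 4 := by
    calc q ^ 4 ≤ (2 * (r * n)) ^ 4 := Nat.pow_le_pow_left h3 4
      _ = 16 * r ^ 4 * n ^ 4 := by ring
  have h5 : q ^ 4 ≤ 16 * r ^ 4 * q ^ 3 := h4.trans (Nat.mul_le_mul_left _ h1)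
  have hq0 : 0 < q ^ 3 := by
    have : 0 < q := by omega
    positivity
  have h6 : 16 * r ^ 4 * q ^ 3 < q * q ^ 3 := Nat.mul_lt_mul_of_pos_right hK hq0
  have h7 : q * q ^ 3 = q ^ 4 := by ring
  omega

lemma Real.mem_ss (R : Real p K G f) (hr : 1 ≤ r) (hK : Infinite K ∨ 16 * r ^ 4 < Nat.card K) :
    p ∈ SS r := by
  refine ⟨⟨K, inferInstance, G, f, R⟩, R.fullP ?_⟩
  intro c hc
  rcases hK with hK | hK
  · exact inf_diff G r f R.1 R.2.1 R.2.2.1 c hc
  · rcases finite_or_infinite K with h | h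
    · exact R.fin_diff hr hK c hc
    · exact inf_diff G r f R.1 R.2.1 R.2.2.1 c hc

end

/-- fields of the same order -/
lemma iso_of_card {p q : X r} {K L : Type} [Field K] [Field L] [Finite K] [Finite L]
    {G : Subgroup Kˣ} {H : Subgroup Lˣ} {f : K → Fin (r+1)} {g : L → Fin (r+1)}
    (R : Real p K G f) (R' : Real q L H g) (hc : Nat.card K = Nat.card L) (hr : 1 ≤ r) :
    Iso p q := by
  classical
  have := Fintype.ofFinite K
  have := Fintype.ofFinite L
  have φ : K ≃+* L := FiniteField.ringEquivOfCardEq (by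
    rw [← Nat.card_eq_fintype_card, ← Nat.card_eq_fintype_card, hc])
  have e1 := R.card_mul
  have e2 := R'.card_mul
  have hGH : Nat.card G = Nat.card H := by
    rw [hc, ← e2] at e1
    have : r * Nat.card G = r * Nat.card H := by omega
    exact Nat.eq_of_mul_eq_mul_left hr this
  set ψ : Kˣ →* Lˣ := Units.map (φ : K →* L) with hψ
  have hψi : Function.Injective ψ := Units.map_injective φ.injective
  have hmap : G.map ψ = H := by
    apply cyc_eq
    rw [← hGH]
    exact Nat.card_congr (G.equivMapOfInjective ψ hψi).symm.toEquiv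
  have hmem : ∀ u : Kˣ, ψ u ∈ H ↔ u ∈ G := by
    intro u
    rw [← hmap, Subgroup.mem_map]
    constructor
    · rintro ⟨v, hv, e⟩
      rw [← hψi e]; exact hv
    · intro hu
      exact ⟨u, hu, rfl⟩
  have hψv : ∀ u : Kˣ, ((ψ u : Lˣ) : L) = φ (u : K) := fun u => rfl
  have hfg : ∀ x y : K, f x = f y ↔ g (φ x) = g (φ y) := by
    intro x y
    rw [R.2.2.1, R'.2.2.1]
    constructor
    · rintro ⟨u, hu, rfl⟩
      exact ⟨ψ u, (hmem u).2 hu, by rw [map_mul, hψv]⟩
    · rintro ⟨v, hv, e⟩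
      rw [← hmap, Subgroup.mem_map] at hv
      obtain ⟨u, hu, rfl⟩ := hv
      refine ⟨u, hu, ?_⟩
      apply φ.injective
      rw [map_mul, ← hψv]; exact e
  obtain ⟨s, hs⟩ : ∃ s : Fin (r+1) → K, ∀ a, f (s a) = a :=
    ⟨fun a => (R.1 a).choose, fun a => (R.1 a).choose_spec⟩
  have he : ∀ x : K, g (φ (s (f x))) = g (φ x) := fun x => (hfg _ _).1 (hs (f x))
  have hinj : Function.Injective (fun a => g (φ (s a))) := by
    intro a b h
    have := (hfg _ _).2 h
    rwa [hs, hs] at this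
  set e : Fin (r+1) ≃ Fin (r+1) := Equiv.ofBijective _ (Finite.injective_iff_bijective.1 hinj)
    with hee
  have hef : ∀ x : K, e (f x) = g (φ x) := he
  refine ⟨e, fun a b => ?_⟩
  obtain ⟨x, rfl⟩ := R.1 a
  obtain ⟨y, rfl⟩ := R.1 b
  constructor
  · rw [← R.2.2.2.1, hef, hef, hef, ← R'.2.2.2.1, map_mul]
  · rw [hef, hef, R.2.2.2.2, R'.2.2.2.2]
    ext z
    constructor
    · rintro ⟨w, ⟨u, hu, v, hv, rfl⟩, rfl⟩
      refine ⟨ψ u, (hmem u).2 hu, ψ v, (hmem v).2 hv, ?_⟩
      rw [hef, map_add, map_mul, map_mul, hψv, hψv]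
    · rintro ⟨u', hu, v', hv, rfl⟩
      rw [← hmap, Subgroup.mem_map] at hu hv
      obtain ⟨u, hu, rfl⟩ := hu
      obtain ⟨v, hv, rfl⟩ := hv
      refine ⟨f (x * u + y * v), ⟨u, hu, v, hv, rfl⟩, ?_⟩
      rw [hef, map_add, map_mul, map_mul, hψv, hψv]

/-- the classes of the quotients of small finite fields -/
lemma small_classes (hr : 1 ≤ r) (N : ℕ) :
    {C | ∃ p : X r, (∃ (K : Type) (_ : Field K) (G : Subgroup Kˣ) (f : K → Fin (r+1)),
      Real p K G f ∧ Finite K ∧ Nat.card K ≤ N) ∧ C = Cm IsQuo p}.ncard ≤ N + 1 := by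
  classical
  have h1 : {C | ∃ p : X r, (∃ (K : Type) (_ : Field K) (G : Subgroup Kˣ) (f : K → Fin (r+1)),
      Real p K G f ∧ Finite K ∧ Nat.card K ≤ N) ∧ C = Cm IsQuo p} ⊆
      ⋃ n ∈ range (N + 1), {C | ∃ p : X r, (∃ (K : Type) (_ : Field K) (G : Subgroup Kˣ)
        (f : K → Fin (r+1)), Real p K G f ∧ Finite K ∧ Nat.card K = n) ∧ C = Cm IsQuo p} := by
    rintro C ⟨p, ⟨K, _, G, f, R, hK, hN⟩, rfl⟩
    rw [Set.mem_iUnion₂]
    exact ⟨Nat.card K, mem_range.2 (by omega), p, ⟨K, inferInstance, G, f, R, hK, rfl⟩, rfl⟩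
  have h2 : ∀ n, {C | ∃ p : X r, (∃ (K : Type) (_ : Field K) (G : Subgroup Kˣ)
        (f : K → Fin (r+1)), Real p K G f ∧ Finite K ∧ Nat.card K = n) ∧ C = Cm IsQuo p}.ncard ≤ 1 := by
    intro n
    rw [Set.ncard_le_one (Set.toFinite _)]
    rintro C ⟨p, ⟨K, _, G, f, R, hK, hn⟩, rfl⟩ C' ⟨q, ⟨L, _, H, g, R', hL, hn'⟩, rfl⟩
    exact Cm_eq (iso_of_card R R' (hn.trans hn'.symm) hr)
  calc _ ≤ _ := Set.ncard_le_ncard h1 (Set.toFinite _)
    _ ≤ ∑ n ∈ range (N + 1), _ := Finset.set_ncard_biUnion_le _ _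
    _ ≤ ∑ _n ∈ range (N + 1), 1 := sum_le_sum (fun n _ => h2 n)
    _ = N + 1 := by simp

end Q257.HF
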