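import Pool.Agent.Q257.HF.Cnt
import Pool.Agent.Q257.HF.Small

/-!
Quotient hyperfields are rare among finite hyperfields.
-/

set_option autoImplicit false

namespace Q257.HF

open Finset Filter

/-- the number of classes of quotient hyperfields -/
noncomputable def Qn (r : ℕ) : ℕ := {C : Set (X r) | ∃ p, IsQuo p ∧ C = Cm IsQuo p}.ncard

/-- the number of classes of hyperfields -/
noncomputable def Hn (r : ℕ) : ℕ := {C : Set (X r) | ∃ p, IsHyp p ∧ C = Cm IsHyp p}.ncard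

/-- the number of classes with `1 - 1` everything -/
noncomputable def Qb (r : ℕ) : ℕ := {C : Set (X r) | ∃ p, p ∈ SS r ∧ C = Cm IsQuo p}.ncard

lemma Qn_le {r : ℕ} (hr : 1 ≤ r) : Qn r ≤ Qb r + (16 * r ^ 4 + 1) := by
  have h1 := small_classes hr (16 * r ^ 4)
  refine le_trans ?_ (Nat.add_le_add_left h1 _)
  refine le_trans (Set.ncard_le_ncard ?_ (Set.toFinite _)) (Set.ncard_union_le _ _)
  rintro C ⟨p, hp, rfl⟩
  obtain ⟨K, _, G, f, h⟩ := id hp
  have R : Real p K G f := h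
  by_cases hK : Infinite K ∨ 16 * r ^ 4 < Nat.card K
  · exact Or.inl ⟨p, R.mem_ss hr hK, rfl⟩
  · push Not at hK
    exact Or.inr ⟨p, ⟨K, inferInstance, G, f, R, not_infinite_iff_finite.1 (by simpa using hK.1), hK.2⟩,
      rfl⟩

lemma pow_growth (c k : ℕ) (b : ℝ) (hb : 1 < b) : ∀ᶠ n : ℕ in atTop, (c : ℝ) * (n : ℝ) ^ k ≤ b ^ n := by
  have h := tendsto_pow_const_div_const_pow_of_one_lt k hb
  have h2 : (0 : ℝ) < 1 / (c + 1) := by positivity
  filter_upwards [h.eventually (gt_mem_nhds h2)] with n hn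
  have hbn : 0 < b ^ n := by positivity
  rw [div_lt_div_iff₀ hbn (by positivity)] at hn
  nlinarith [pow_nonneg (Nat.cast_nonneg n : (0 : ℝ) ≤ n) k]

lemma ev_large : ∀ᶠ r : ℕ in atTop, Large r := by
  obtain ⟨u0, hu0⟩ := eventually_atTop.1 (pow_growth (2 * 24 ^ 4) 4 (4 / 3) (by norm_num))
  filter_upwards [eventually_ge_atTop (24 * u0)] with r hr u hu
  have h1 := hu0 u (by omega)
  have h2 : (2 : ℝ) * r ^ 4 * 3 ^ u ≤ 4 ^ u := by
    have h3 : (r : ℝ) ^ 4 ≤ (24 * u) ^ 4 := by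
      have : (r : ℝ) ≤ 24 * u := by exact_mod_cast hu
      gcongr
    have h4 : (4 : ℝ) ^ u = (4 / 3) ^ u * 3 ^ u := by rw [← mul_pow]; norm_num
    rw [h4]
    apply mul_le_mul_of_nonneg_right _ (by positivity)
    push_cast at h1
    nlinarith
  exact_mod_cast h2

lemma ev_log (c : ℕ) : ∀ᶠ r : ℕ in atTop, c * (Nat.log 2 r + 2) ^ 2 ≤ r := by
  obtain ⟨k0, hk0⟩ := eventually_atTop.1 (pow_growth (4 * c) 2 2 (by norm_num))
  filter_upwards [eventually_ge_atTop (2 ^ k0)] with r hr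
  have hr0 : r ≠ 0 := by
    have : 0 < 2 ^ k0 := by positivity
    omega
  have hk : k0 ≤ Nat.log 2 r := Nat.le_log_of_pow_le (by norm_num) hr
  have h1 := hk0 (Nat.log 2 r + 2) (by omega)
  have h2 : (4 * c) * (Nat.log 2 r + 2) ^ 2 ≤ 2 ^ (Nat.log 2 r + 2) := by exact_mod_cast h1
  have h3 : 2 ^ Nat.log 2 r ≤ r := Nat.pow_log_le_self 2 hr0
  have h4 : 2 ^ (Nat.log 2 r + 2) = 4 * 2 ^ Nat.log 2 r := by ring
  rw [h4] at h2
  have h5 : 4 * (c * (Nat.log 2 r + 2) ^ 2) ≤ 4 * 2 ^ Nat.log 2 r := by linarith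
  omega

lemma ar1 (l M r : ℕ) (h : 12 * (M + 8) * (l + 1) ^ 2 ≤ r) : l * (l + 1) + 1 + M ≤ r / 6 := by
  rw [Nat.le_div_iff_mul_le (by norm_num)]
  obtain ⟨s, hs⟩ : ∃ s, s = (l + 1) ^ 2 := ⟨_, rfl⟩
  rw [← hs] at h
  have h1 : l * (l + 1) ≤ s := by rw [hs, sq]; exact Nat.mul_le_mul_right _ (by omega)
  have h2 : 1 ≤ s := by rw [hs]; exact Nat.one_le_pow _ _ (by omega)
  have h3 : M ≤ M * s := Nat.le_mul_of_pos_right _ (by omega)
  have h4 : 12 * (M + 8) * s = 12 * (M * s) + 96 * s := by ring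
  omega

lemma ar2 (l M r : ℕ) (hr : 1 ≤ r) (h : 12 * (M + 8) * (l + 1) ^ 2 ≤ r) :
    1 + l * (r + 1) + (4 * l + 5 + M) ≤ r ^ 2 / 6 := by
  rw [Nat.le_div_iff_mul_le (by norm_num)]
  obtain ⟨s, hs⟩ : ∃ s, s = (l + 1) ^ 2 := ⟨_, rfl⟩
  rw [← hs] at h
  have h1 : l + 1 ≤ s := by rw [hs]; exact Nat.le_self_pow (by norm_num) _
  have h3 : M ≤ M * s := Nat.le_mul_of_pos_right _ (by omega)
  have h5 : l * (r + 1) ≤ 2 * (s * r) := by
    calc l * (r + 1) ≤ s * (r + 1) := Nat.mul_le_mul_right _ (by omega)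
      _ ≤ s * (2 * r) := Nat.mul_le_mul_left _ (by omega)
      _ = 2 * (s * r) := by ring
  have h6 : 1 + (4 * l + 5 + M) ≤ (M * s + 10 * s) * r := by
    have : 1 + (4 * l + 5 + M) ≤ (M * s + 10 * s) := by omega
    exact this.trans (Nat.le_mul_of_pos_right _ (by omega))
  have h7 : 12 * (M + 8) * s * r ≤ r * r := Nat.mul_le_mul_right _ h
  have h8 : 12 * (M + 8) * s * r = 12 * (M * s * r) + 96 * (s * r) := by ring
  have h9 : (M * s + 10 * s) * r = M * s * r + 10 * (s * r) := by ring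
  rw [sq]
  omega

lemma ar3 (l k M : ℕ) (h : l = k + 1) : 1 + l + l + l * k + M = l * (l + 1) + 1 + M := by
  subst h; ring

lemma main_bound (M : ℕ) : ∀ᶠ r : ℕ in atTop, Qn r * 2 ^ M ≤ 2 * Hn r := by
  filter_upwards [ev_large, ev_log (12 * (M + 8)), eventually_ge_atTop 1] with r hL hlog hr
  set l := Nat.log 2 r + 1 with hl
  have hrl : r + 1 ≤ 2 ^ l := Nat.lt_pow_succ_log_self (by norm_num) r
  have hlog' : 12 * (M + 8) * (l + 1) ^ 2 ≤ r := by
    have : Nat.log 2 r + 2 = l + 1 := by omega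
    rw [← this]; exact hlog
  have hl1 : 1 ≤ l := by omega
  -- the labelled count
  have c1 := classes_lower (r := r) IsHyp
  have c2 := classes_upper hr
  have c3 := ss_le hL
  have c4 := hyp_many hr hL
  have hH : {C : Set (X r) | ∃ p, IsHyp p ∧ C = Cm IsHyp p}.ncard = Hn r := rfl
  have hQ : {C : Set (X r) | ∃ p, p ∈ SS r ∧ C = Cm IsQuo p}.ncard = Qb r := rfl
  rw [hH] at c1
  rw [hQ] at c2
  set L := {p : X r | IsHyp p}.ncard with hLdef
  set A := (r + 1) ^ (Nat.log 2 r) with hA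
  have hApos : 0 < A := by positivity
  have hAle : 2 * r * (r + 1) * A * 2 ^ M ≤ 2 ^ (r / 6) := by
    have h1 : A ≤ 2 ^ (l * Nat.log 2 r) := by
      rw [hA, pow_mul]
      exact Nat.pow_le_pow_left hrl _
    have h2 : 2 * r * (r + 1) * A * 2 ^ M ≤ 2 * 2 ^ l * 2 ^ l * 2 ^ (l * Nat.log 2 r) * 2 ^ M := by
      gcongr
      omega
    refine h2.trans ?_
    have h3 : 2 * 2 ^ l * 2 ^ l * 2 ^ (l * Nat.log 2 r) * 2 ^ M =
        2 ^ (1 + l + l + l * Nat.log 2 r + M) := by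
      generalize Nat.log 2 r = k
      generalize l = l
      rw [pow_add, pow_add, pow_add, pow_add, pow_one]
    rw [h3]
    apply Nat.pow_le_pow_right (by norm_num)
    rw [ar3 l (Nat.log 2 r) M hl]
    exact ar1 l M r hlog'
  -- large fields
  have b1 : Qb r * 2 ^ M ≤ Hn r := by
    have h1 : r.factorial * Qb r * 2 ^ (r / 6) ≤ A * (2 * r * ((r + 1).factorial * Hn r)) := by
      calc r.factorial * Qb r * 2 ^ (r / 6) ≤ A * (SS r).ncard * 2 ^ (r / 6) :=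
            Nat.mul_le_mul_right _ c2
        _ = A * ((SS r).ncard * 2 ^ (r / 6)) := by ring
        _ ≤ A * (2 * r * L) := Nat.mul_le_mul_left _ c3
        _ ≤ _ := Nat.mul_le_mul_left _ (Nat.mul_le_mul_left _ c1)
    rw [Nat.factorial_succ] at h1
    have h2 : r.factorial * (Qb r * 2 ^ (r / 6)) ≤
        r.factorial * ((2 * r * (r + 1) * A) * Hn r) := by
      calc r.factorial * (Qb r * 2 ^ (r / 6)) = r.factorial * Qb r * 2 ^ (r / 6) := by ring
        _ ≤ _ := h1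
        _ = _ := by ring
    have h3 := Nat.le_of_mul_le_mul_left h2 (Nat.factorial_pos r)
    have hpos : 0 < 2 * r * (r + 1) * A := by positivity
    apply Nat.le_of_mul_le_mul_left _ hpos
    calc 2 * r * (r + 1) * A * (Qb r * 2 ^ M) = Qb r * (2 * r * (r + 1) * A * 2 ^ M) := by ring
      _ ≤ Qb r * 2 ^ (r / 6) := Nat.mul_le_mul_left _ hAle
      _ ≤ _ := h3
  -- small fields
  have b2 : (16 * r ^ 4 + 1) * 2 ^ M ≤ Hn r := by
    have h1 : 2 ^ (r ^ 2 / 6) ≤ 2 * ((r + 1).factorial * Hn r) :=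
      c4.trans (Nat.mul_le_mul_left _ c1)
    have h2 : (r + 1).factorial ≤ 2 ^ (l * (r + 1)) := by
      calc (r + 1).factorial ≤ (r + 1) ^ (r + 1) := Nat.factorial_le_pow _
        _ ≤ (2 ^ l) ^ (r + 1) := Nat.pow_le_pow_left hrl _
        _ = _ := by rw [← pow_mul]
    have h3 : 16 * r ^ 4 + 1 ≤ 2 ^ (4 * l + 5) := by
      have : r ^ 4 ≤ (2 ^ l) ^ 4 := Nat.pow_le_pow_left (by omega) 4
      have h5 : (2 ^ l) ^ 4 = 2 ^ (4 * l) := by rw [← pow_mul, mul_comm]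
      rw [h5] at this
      have h6 : 2 ^ (4 * l + 5) = 32 * 2 ^ (4 * l) := by ring
      have h7 : 1 ≤ 2 ^ (4 * l) := Nat.one_le_two_pow
      omega
    have hpos : 0 < 2 * (r + 1).factorial := by positivity
    apply Nat.le_of_mul_le_mul_left _ hpos
    calc 2 * (r + 1).factorial * ((16 * r ^ 4 + 1) * 2 ^ M)
        ≤ 2 * 2 ^ (l * (r + 1)) * (2 ^ (4 * l + 5) * 2 ^ M) := by gcongr
      _ = 2 ^ (1 + l * (r + 1) + (4 * l + 5 + M)) := by
          rw [pow_add, pow_add, pow_add, pow_one]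
          ring
      _ ≤ 2 ^ (r ^ 2 / 6) := by
          apply Nat.pow_le_pow_right (by norm_num)
          exact ar2 l M r hr hlog'
      _ ≤ _ := by rw [mul_assoc]; exact h1
  have b3 := Qn_le hr
  calc Qn r * 2 ^ M ≤ (Qb r + (16 * r ^ 4 + 1)) * 2 ^ M := Nat.mul_le_mul_right _ b3
    _ = Qb r * 2 ^ M + (16 * r ^ 4 + 1) * 2 ^ M := by ring
    _ ≤ Hn r + Hn r := Nat.add_le_add b1 b2
    _ = 2 * Hn r := by ring

theorem limit : Tendsto (fun r : ℕ => (Qn r : ℝ) / (Hn r : ℝ)) atTop (nhds 0) := by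
  rw [Metric.tendsto_atTop']
  intro ε hε
  obtain ⟨M, hM⟩ := exists_pow_lt_of_lt_one (show (0 : ℝ) < ε / 2 by positivity)
    (show (1 / 2 : ℝ) < 1 by norm_num)
  obtain ⟨N, hN⟩ := eventually_atTop.1 (main_bound M)
  refine ⟨N, fun r hr => ?_⟩
  have h1 := hN r hr.le
  rw [Real.dist_eq, sub_zero, abs_of_nonneg (by positivity)]
  rcases Nat.eq_zero_or_pos (Hn r) with h0 | h0
  · rw [h0]; simpa using hε
  · have h2 : (Qn r : ℝ) * 2 ^ M ≤ 2 * Hn r := by exact_mod_cast h1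
    have h3 : (0 : ℝ) < Hn r := by exact_mod_cast h0
    rw [div_lt_iff₀ h3]
    have h4 : (2 : ℝ) * (1 / 2) ^ M < ε := by linarith
    have h5 : (Qn r : ℝ) = (Qn r * 2 ^ M) * (1 / 2) ^ M := by
      rw [mul_assoc, ← mul_pow]; norm_num
    rw [h5]
    calc (Qn r * 2 ^ M : ℝ) * (1 / 2) ^ M ≤ (2 * Hn r) * (1 / 2) ^ M :=
          mul_le_mul_of_nonneg_right h2 (by positivity)
      _ = (2 * (1 / 2) ^ M) * Hn r := by ring
      _ < ε * Hn r := mul_lt_mul_of_pos_right h4 h3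

end Q257.HF
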