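import Mathlib

/-!
Triples of elements of a finite commutative group up to a common factor and up to order, and random
sets of such classes.
-/

set_option autoImplicit false

namespace Q257.HF

open Finset

section Orb

variable (M : Type) [CommGroup M]

/-- triples up to a common factor and up to the order -/
def orbSetoid : Setoid (Fin 3 → M) where
  r v w := ∃ (l : M) (σ : Equiv.Perm (Fin 3)), w = fun i => l * v (σ i)
  iseqv := by
    refine ⟨fun v => ⟨1, 1, by simp⟩, ?_, ?_⟩
    · rintro v w ⟨l, σ, rfl⟩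
      exact ⟨l⁻¹, σ⁻¹, by funext i; simp⟩
    · rintro u v w ⟨l, σ, rfl⟩ ⟨l', σ', rfl⟩
      exact ⟨l' * l, σ * σ', by funext i; simp [mul_assoc]⟩

/-- the classes -/
def Orb : Type := Quotient (orbSetoid M)

variable {M}

/-- the class of a triple -/
def cls (v : Fin 3 → M) : Orb M := Quotient.mk (orbSetoid M) v

/-- the class of a triple -/
def mk3 (x y z : M) : Orb M := cls ![x, y, z]

lemma mk3_surj (t : Orb M) : ∃ x y z : M, t = mk3 x y z := by
  induction t using Quotient.inductionOn with
  | h v =>
    refine ⟨v 0, v 1, v 2, ?_⟩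
    unfold mk3 cls
    congr 1
    funext i
    fin_cases i <;> rfl

lemma mk3_exact {x y z x' y' z' : M} (h : mk3 x y z = mk3 x' y' z') :
    ∃ (l : M) (σ : Equiv.Perm (Fin 3)), ![x', y', z'] = fun i => l * ![x, y, z] (σ i) :=
  Quotient.exact h

lemma mk3_scale (l x y z : M) : mk3 (l * x) (l * y) (l * z) = mk3 x y z := by
  symm
  refine Quotient.sound ⟨l, 1, ?_⟩
  funext i
  fin_cases i <;> simp

lemma mk3_swap12 (x y z : M) : mk3 y x z = mk3 x y z := by
  symm
  refine Quotient.sound ⟨1, Equiv.swap 0 1, ?_⟩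
  funext i
  fin_cases i <;> simp [Equiv.swap_apply_def]

lemma mk3_swap23 (x y z : M) : mk3 x z y = mk3 x y z := by
  symm
  refine Quotient.sound ⟨1, Equiv.swap 1 2, ?_⟩
  funext i
  fin_cases i <;> simp [Equiv.swap_apply_def]

lemma perm3 (σ : Equiv.Perm (Fin 3)) :
    (σ 0 = 0 ∧ σ 1 = 1 ∧ σ 2 = 2) ∨ (σ 0 = 0 ∧ σ 1 = 2 ∧ σ 2 = 1) ∨
    (σ 0 = 1 ∧ σ 1 = 0 ∧ σ 2 = 2) ∨ (σ 0 = 1 ∧ σ 1 = 2 ∧ σ 2 = 0) ∨
    (σ 0 = 2 ∧ σ 1 = 0 ∧ σ 2 = 1) ∨ (σ 0 = 2 ∧ σ 1 = 1 ∧ σ 2 = 0) := by
  revert σ; decide

/-- a property which is invariant under a common factor and under two transpositions is a property of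
the classes -/
lemma inv_of (P : M → M → M → Prop) (hs : ∀ l x y z, P x y z → P (l * x) (l * y) (l * z))
    (h12 : ∀ x y z, P x y z → P y x z) (h23 : ∀ x y z, P x y z → P x z y) {x y z x' y' z' : M}
    (h : mk3 x y z = mk3 x' y' z') (hP : P x y z) : P x' y' z' := by
  obtain ⟨l, σ, hσ⟩ := mk3_exact h
  have e0 := congrFun hσ 0
  have e1 := congrFun hσ 1
  have e2 := congrFun hσ 2
  simp only [Matrix.cons_val_zero, Matrix.cons_val_one, Matrix.cons_val_two, Matrix.tail_cons,
    Matrix.head_cons] at e0 e1 e2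
  rcases perm3 σ with ⟨a, b, c⟩ | ⟨a, b, c⟩ | ⟨a, b, c⟩ | ⟨a, b, c⟩ | ⟨a, b, c⟩ | ⟨a, b, c⟩ <;>
    rw [a] at e0 <;> rw [b] at e1 <;> rw [c] at e2 <;> simp at e0 e1 e2 <;> rw [e0, e1, e2] <;>
    apply hs
  · exact hP
  · exact h23 _ _ _ hP
  · exact h12 _ _ _ hP
  · exact h23 _ _ _ (h12 _ _ _ hP)
  · exact h12 _ _ _ (h23 _ _ _ hP)
  · exact h12 _ _ _ (h23 _ _ _ (h12 _ _ _ hP))

variable [Fintype M]

noncomputable instance : Fintype (Orb M) := by
  classical
  exact Fintype.ofFinite (Quotient (orbSetoid M))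

open Classical in
lemma fiber_le (x y : M) (t : Orb M) : (univ.filter (fun v : M => mk3 x y v = t)).card ≤ 6 := by
  rcases (univ.filter (fun v : M => mk3 x y v = t)).eq_empty_or_nonempty with h | ⟨v0, h0⟩
  · rw [h]; simp
  · rw [mem_filter] at h0
    have hsub : univ.filter (fun v : M => mk3 x y v = t) ⊆
        (univ : Finset (Equiv.Perm (Fin 3))).image
          (fun σ => x * (![x, y, v0] (σ 0))⁻¹ * ![x, y, v0] (σ 2)) := by
      intro v hv
      rw [mem_filter] at hv
      obtain ⟨l, σ, hσ⟩ := mk3_exact (h0.2.trans hv.2.symm)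
      rw [mem_image]
      refine ⟨σ, mem_univ _, ?_⟩
      have e0 := congrFun hσ 0
      have e2 := congrFun hσ 2
      have e0' : x = l * ![x, y, v0] (σ 0) := e0
      have e2' : v = l * ![x, y, v0] (σ 2) := e2
      have : x * (![x, y, v0] (σ 0))⁻¹ = l := by rw [mul_inv_eq_iff_eq_mul]; exact e0'
      rw [this]; exact e2'.symm
    refine (card_le_card hsub).trans (card_image_le.trans ?_)
    rw [Finset.card_univ, Fintype.card_perm]
    simp [Nat.factorial]

open Classical in
lemma fiber_all (t : Orb M) : (univ.filter (fun v : Fin 3 → M => cls v = t)).card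
    ≤ 6 * Fintype.card M := by
  rcases (univ.filter (fun v : Fin 3 → M => cls v = t)).eq_empty_or_nonempty
    with h | ⟨v0, h0⟩
  · rw [h]; simp
  · rw [mem_filter] at h0
    have hsub : univ.filter (fun v : Fin 3 → M => cls v = t) ⊆
        (univ : Finset (Equiv.Perm (Fin 3) × M)).image
          (fun p => fun i => p.2 * v0 (p.1 i)) := by
      intro v hv
      rw [mem_filter] at hv
      obtain ⟨l, σ, hσ⟩ := Quotient.exact (h0.2.trans hv.2.symm)
      rw [mem_image]
      exact ⟨(σ, l), mem_univ _, hσ.symm⟩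
    refine (card_le_card hsub).trans (card_image_le.trans ?_)
    rw [Finset.card_univ, Fintype.card_prod, Fintype.card_perm]
    simp [Nat.factorial]

/-- there are many classes -/
lemma card_orb : Fintype.card M ^ 2 ≤ 6 * Fintype.card (Orb M) := by
  classical
  have h := Finset.card_eq_sum_card_fiberwise (f := fun v : Fin 3 → M => cls v)
    (s := univ) (t := (univ : Finset (Orb M))) (fun v _ => Finset.mem_coe.2 (mem_univ _))
  rw [Finset.card_univ, Fintype.card_fun, Fintype.card_fin] at h
  have h3 : Fintype.card M ^ 3 ≤ Fintype.card (Orb M) * (6 * Fintype.card M) := by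
    rw [h]
    refine (sum_le_sum (g := fun _ => 6 * Fintype.card M) (fun t _ => ?_)).trans ?_
    · convert fiber_all t
    · rw [sum_const, Finset.card_univ, smul_eq_mul]
  have hpos : 0 < Fintype.card M := Fintype.card_pos
  have h4 : Fintype.card M ^ 2 * Fintype.card M ≤ (6 * Fintype.card (Orb M)) * Fintype.card M := by
    calc Fintype.card M ^ 2 * Fintype.card M = Fintype.card M ^ 3 := by ring
      _ ≤ _ := h3
      _ = _ := by ring
  exact Nat.le_of_mul_le_mul_right h4 hpos

end Orb

section Prob

/-- independence -/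
def Indep {ι : Type*} (c : ι → ι → Prop) (U : Finset ι) : Prop :=
  ∀ u ∈ U, ∀ v ∈ U, u ≠ v → ¬ c u v

/-- a maximal independent set -/
lemma exists_indep {ι : Type*} (V : Finset ι) (c : ι → ι → Prop)
    (hrefl : ∀ u, c u u) (hsymm : ∀ u v, c u v → c v u) (d : ℕ)
    (hd : ∀ u ∈ V, ∀ S : Finset ι, (∀ v ∈ S, c u v) → S.card ≤ d) :
    ∃ U ⊆ V, Indep c U ∧ V.card ≤ d * U.card := by
  classical
  obtain ⟨U, hU, hmax⟩ := Finset.exists_max_image
    (V.powerset.filter (fun U => Indep c U)) Finset.card
    ⟨∅, by rw [mem_filter]; exact ⟨empty_mem_powerset _, fun u hu => absurd hu (notMem_empty _)⟩⟩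
  rw [mem_filter, mem_powerset] at hU
  refine ⟨U, hU.1, hU.2, ?_⟩
  have hcov : V ⊆ U.biUnion (fun u => V.filter (fun v => c u v)) := by
    intro v hv
    by_contra hn
    rw [mem_biUnion] at hn
    push Not at hn
    have hn' : ∀ u ∈ U, ¬ c u v := fun u hu hc => hn u hu (mem_filter.2 ⟨hv, hc⟩)
    have hvU : v ∉ U := fun h => hn' v h (hrefl v)
    have h1 := hmax (insert v U) (by
      rw [mem_filter, mem_powerset]
      refine ⟨insert_subset hv hU.1, ?_⟩
      intro a ha b hb hab
      rw [mem_insert] at ha hb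
      rcases ha with rfl | ha
      · rcases hb with rfl | hb
        · exact absurd rfl hab
        · exact fun h => hn' b hb (hsymm _ _ h)
      · rcases hb with rfl | hb
        · exact hn' a ha
        · exact hU.2 a ha b hb hab)
    rw [card_insert_of_notMem hvU] at h1
    omega
  calc V.card ≤ _ := card_le_card hcov
    _ ≤ ∑ u ∈ U, (V.filter (fun v => c u v)).card := card_biUnion_le
    _ ≤ ∑ _u ∈ U, d := sum_le_sum (fun u hu => hd u (hU.1 hu) _ (fun v hv => (mem_filter.1 hv).2))
    _ = d * U.card := by rw [sum_const, smul_eq_mul, mul_comm]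

open Classical in
lemma pairs_bound {T ι : Type*} [Fintype T] (P Q : ι → T) (U : Finset ι)
    (hU : ∀ u ∈ U, ∀ v ∈ U, u ≠ v → P u ≠ P v ∧ P u ≠ Q v ∧ Q u ≠ P v ∧ Q u ≠ Q v) :
    4 ^ U.card * (univ.filter (fun f : T → Bool =>
      ∀ u ∈ U, ¬ (f (P u) = true ∧ f (Q u) = true))).card ≤ 3 ^ U.card * 2 ^ Fintype.card T := by
  induction U using Finset.induction_on with
  | empty => simp
  | insert u0 U h0 ih =>
    have ih' := ih (fun u hu v hv => hU u (mem_insert_of_mem hu) v (mem_insert_of_mem hv))
    set A := univ.filter (fun f : T → Bool =>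
      ∀ u ∈ U, ¬ (f (P u) = true ∧ f (Q u) = true)) with hA
    set C := univ.filter (fun f : T → Bool =>
      ∀ u ∈ insert u0 U, ¬ (f (P u) = true ∧ f (Q u) = true)) with hC
    set D := A.filter (fun f => f (P u0) = true ∧ f (Q u0) = true) with hD
    have h1 : C = A.filter (fun f => ¬ (f (P u0) = true ∧ f (Q u0) = true)) := by
      ext f
      simp only [hC, hA, mem_filter, mem_univ, true_and, mem_insert, forall_eq_or_imp]
      tauto
    have h2 : D.card + C.card = A.card := by
      rw [h1, hD]
      exact card_filter_add_card_filter_not _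
    have h3 : A.card ≤ (D ×ˢ (univ : Finset (Bool × Bool))).card := by
      refine card_le_card_of_injOn (fun f => (Function.update (Function.update f (P u0) true)
        (Q u0) true, (f (P u0), f (Q u0)))) ?_ ?_
      · intro f hf
        rw [Finset.mem_coe] at hf
        rw [Finset.mem_coe, mem_product]
        refine ⟨?_, mem_univ _⟩
        rw [hA, mem_filter] at hf
        rw [hD, mem_filter, hA, mem_filter]
        refine ⟨⟨mem_univ _, fun u hu => ?_⟩, ?_⟩
        · have hne : u ≠ u0 := fun h => h0 (h ▸ hu)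
          obtain ⟨a1, a2, a3, a4⟩ := hU u (mem_insert_of_mem hu) u0 (mem_insert_self _ _) hne
          simp only [Function.update_of_ne a1, Function.update_of_ne a2, Function.update_of_ne a3,
            Function.update_of_ne a4]
          exact hf.2 u hu
        · constructor
          · by_cases h : P u0 = Q u0
            · simp [h]
            · simp [Function.update_of_ne h]
          · simp
      · intro f _ g _ hfg
        simp only [Prod.mk.injEq] at hfg
        obtain ⟨e1, e2, e3⟩ := hfg
        funext t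
        by_cases hP : t = P u0
        · rw [hP]; exact e2
        · by_cases hQ : t = Q u0
          · rw [hQ]; exact e3
          · have := congrFun e1 t
            simpa [Function.update_of_ne hP, Function.update_of_ne hQ] using this
    rw [card_product, Finset.card_univ, Fintype.card_prod, Fintype.card_bool] at h3
    rw [card_insert_of_notMem h0, pow_succ, pow_succ]
    have h4 : 4 * C.card ≤ 3 * A.card := by omega
    calc 4 ^ U.card * 4 * C.card = 4 ^ U.card * (4 * C.card) := by ring
      _ ≤ 4 ^ U.card * (3 * A.card) := Nat.mul_le_mul_left _ h4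
      _ = 3 * (4 ^ U.card * A.card) := by ring
      _ ≤ 3 * (3 ^ U.card * 2 ^ Fintype.card T) := Nat.mul_le_mul_left _ ih'
      _ = 3 ^ U.card * 3 * 2 ^ Fintype.card T := by ring

variable {M : Type} [CommGroup M] [Fintype M]

/-- any two rows have a common element -/
def Good (f : Orb M → Bool) : Prop :=
  ∀ x y z w : M, ∃ u : M, f (mk3 x y u) = true ∧ f (mk3 z w u) = true

open Classical in
lemma bad_bound (hr : ∀ u : ℕ, Fintype.card M ≤ 24 * u → 2 * Fintype.card M ^ 4 * 3 ^ u ≤ 4 ^ u)
    (x y z w : M) :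
    2 * Fintype.card M ^ 4 * (univ.filter (fun f : Orb M → Bool =>
      ¬ ∃ u : M, f (mk3 x y u) = true ∧ f (mk3 z w u) = true)).card ≤ 2 ^ Fintype.card (Orb M) := by
  obtain ⟨U, -, hU, hcard⟩ := exists_indep (univ : Finset M)
    (fun u v => mk3 x y u = mk3 x y v ∨ mk3 x y u = mk3 z w v ∨ mk3 z w u = mk3 x y v ∨
      mk3 z w u = mk3 z w v) (fun u => Or.inl rfl) (by
        intro u v h
        rcases h with h | h | h | h
        · exact Or.inl h.symm
        · exact Or.inr (Or.inr (Or.inl h.symm))
        · exact Or.inr (Or.inl h.symm)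
        · exact Or.inr (Or.inr (Or.inr h.symm))) 24 (by
        intro u _ S hS
        have hsub : S ⊆
            ((univ.filter (fun v : M => mk3 x y v = mk3 x y u)) ∪
              (univ.filter (fun v : M => mk3 z w v = mk3 x y u))) ∪
            ((univ.filter (fun v : M => mk3 x y v = mk3 z w u)) ∪
              (univ.filter (fun v : M => mk3 z w v = mk3 z w u))) := by
          intro v hv
          have hv := hS v hv
          simp only [mem_filter, mem_univ, true_and, mem_union] at hv ⊢
          rcases hv with h | h | h | h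
          · exact Or.inl (Or.inl h.symm)
          · exact Or.inl (Or.inr h.symm)
          · exact Or.inr (Or.inl h.symm)
          · exact Or.inr (Or.inr h.symm)
        have h1 := fiber_le x y (mk3 x y u)
        have h2 := fiber_le z w (mk3 x y u)
        have h3 := fiber_le x y (mk3 z w u)
        have h4 := fiber_le z w (mk3 z w u)
        refine (card_le_card hsub).trans ((card_union_le _ _).trans ?_)
        have h5 := card_union_le (univ.filter (fun v : M => mk3 x y v = mk3 x y u))
          (univ.filter (fun v : M => mk3 z w v = mk3 x y u))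
        have h6 := card_union_le (univ.filter (fun v : M => mk3 x y v = mk3 z w u))
          (univ.filter (fun v : M => mk3 z w v = mk3 z w u))
        omega)
  rw [Finset.card_univ] at hcard
  have h1 := pairs_bound (fun u : M => mk3 x y u) (fun u : M => mk3 z w u) U (by
    intro u hu v hv huv
    have := hU u hu v hv huv
    simp only [not_or] at this
    exact this)
  have h2 := hr U.card hcard
  set B := univ.filter (fun f : Orb M → Bool =>
      ¬ ∃ u : M, f (mk3 x y u) = true ∧ f (mk3 z w u) = true) with hB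
  have hsub : 4 ^ U.card * B.card ≤ 3 ^ U.card * 2 ^ Fintype.card (Orb M) := by
    refine le_trans (Nat.mul_le_mul_left _ (card_le_card ?_)) h1
    intro f hf
    simp only [hB, mem_filter, mem_univ, true_and] at hf
    simp only [mem_filter, mem_univ, true_and]
    exact fun u _ h => hf ⟨u, h⟩
  have h4pos : 0 < 4 ^ U.card := by positivity
  apply Nat.le_of_mul_le_mul_left _ h4pos
  calc 4 ^ U.card * (2 * Fintype.card M ^ 4 * B.card)
      = 2 * Fintype.card M ^ 4 * (4 ^ U.card * B.card) := by ring
    _ ≤ 2 * Fintype.card M ^ 4 * (3 ^ U.card * 2 ^ Fintype.card (Orb M)) :=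
        Nat.mul_le_mul_left _ hsub
    _ = (2 * Fintype.card M ^ 4 * 3 ^ U.card) * 2 ^ Fintype.card (Orb M) := by ring
    _ ≤ 4 ^ U.card * 2 ^ Fintype.card (Orb M) := Nat.mul_le_mul_right _ h2

open Classical in
/-- at least half of all sets are good -/
lemma good_half (hr : ∀ u : ℕ, Fintype.card M ≤ 24 * u → 2 * Fintype.card M ^ 4 * 3 ^ u ≤ 4 ^ u) :
    2 ^ Fintype.card (Orb M) ≤ 2 * (univ.filter (fun f : Orb M → Bool => Good f)).card := by
  set N := 2 ^ Fintype.card (Orb M) with hN
  have hpos : 0 < Fintype.card M := Fintype.card_pos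
  have h1 : (univ.filter (fun f : Orb M → Bool => Good f)).card +
      (univ.filter (fun f : Orb M → Bool => ¬ Good f)).card = N := by
    rw [card_filter_add_card_filter_not, Finset.card_univ, Fintype.card_fun, Fintype.card_bool]
  have h2 : (univ.filter (fun f : Orb M → Bool => ¬ Good f)) ⊆
      (univ : Finset (M × M × M × M)).biUnion (fun p => univ.filter (fun f : Orb M → Bool =>
        ¬ ∃ u : M, f (mk3 p.1 p.2.1 u) = true ∧ f (mk3 p.2.2.1 p.2.2.2 u) = true)) := by
    intro f hf
    rw [mem_filter] at hf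
    obtain ⟨-, hf⟩ := hf
    unfold Good at hf
    push Not at hf
    obtain ⟨x, y, z, w, h⟩ := hf
    rw [mem_biUnion]
    refine ⟨(x, y, z, w), mem_univ _, ?_⟩
    rw [mem_filter]
    refine ⟨mem_univ _, ?_⟩
    push Not
    exact h
  have h3 : 2 * Fintype.card M ^ 4 * (univ.filter (fun f : Orb M → Bool => ¬ Good f)).card ≤
      Fintype.card M ^ 4 * N := by
    calc 2 * Fintype.card M ^ 4 * (univ.filter (fun f : Orb M → Bool => ¬ Good f)).card
        ≤ 2 * Fintype.card M ^ 4 * ∑ p : M × M × M × M, (univ.filter (fun f : Orb M → Bool =>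
          ¬ ∃ u : M, f (mk3 p.1 p.2.1 u) = true ∧ f (mk3 p.2.2.1 p.2.2.2 u) = true)).card :=
          Nat.mul_le_mul_left _ ((card_le_card h2).trans card_biUnion_le)
      _ = ∑ p : M × M × M × M, 2 * Fintype.card M ^ 4 * (univ.filter (fun f : Orb M → Bool =>
          ¬ ∃ u : M, f (mk3 p.1 p.2.1 u) = true ∧ f (mk3 p.2.2.1 p.2.2.2 u) = true)).card := by
          rw [mul_sum]
      _ ≤ ∑ _p : M × M × M × M, N := sum_le_sum (fun p _ => bad_bound hr _ _ _ _)
      _ = Fintype.card M ^ 4 * N := by
          rw [sum_const, Finset.card_univ, smul_eq_mul]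
          simp only [Fintype.card_prod]
          ring
  have h4 : 2 * (univ.filter (fun f : Orb M → Bool => ¬ Good f)).card ≤ N := by
    have h5 : 0 < Fintype.card M ^ 4 := by positivity
    apply Nat.le_of_mul_le_mul_left _ h5
    calc Fintype.card M ^ 4 * (2 * (univ.filter (fun f : Orb M → Bool => ¬ Good f)).card)
        = 2 * Fintype.card M ^ 4 * (univ.filter (fun f : Orb M → Bool => ¬ Good f)).card := by ring
      _ ≤ _ := h3
  omega

end Prob

end Q257.HF
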