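import Pool.Agent.Q257.HF.Hyp
import Pool.Agent.Q257.HF.Fin
import Pool.Agent.Q257.HF.Inf

/-!
Hyperfields on `Fin (r + 1)`: multiplication tables and hyperadditions.
-/

set_option autoImplicit false

namespace Q257.HF

open Finset

/-- pairs of a multiplication and a hyperaddition -/
abbrev X (r : ℕ) : Type := (Fin (r+1) → Fin (r+1) → Fin (r+1)) × (Fin (r+1) → Fin (r+1) → Set (Fin (r+1)))

/-- the axioms of a hyperfield -/
def IsHyp {r : ℕ} (p : X r) : Prop :=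
  ((∃ u : Fin (r+1), u ≠ 0 ∧ ∀ a, p.1 u a = a) ∧
    (∀ a b, p.1 a b = p.1 b a) ∧
    (∀ a b c, p.1 (p.1 a b) c = p.1 a (p.1 b c)) ∧
    (∀ a, p.1 0 a = 0) ∧
    (∀ a b, a ≠ 0 → b ≠ 0 → p.1 a b ≠ 0) ∧
    (∀ a, a ≠ 0 → ∃ b, ∀ c, p.1 (p.1 a b) c = c) ∧
    (∀ a b, (p.2 a b).Nonempty) ∧
    (∀ a b, p.2 a b = p.2 b a) ∧
    (∀ a b c, (⋃ x ∈ p.2 a b, p.2 x c) = ⋃ x ∈ p.2 b c, p.2 a x) ∧
    (∀ a, p.2 0 a = {a}) ∧
    (∀ a, ∃! b, (0 : Fin (r+1)) ∈ p.2 a b) ∧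
    (∀ a b c d, a ∈ p.2 b c → (0 : Fin (r+1)) ∈ p.2 b d → c ∈ p.2 a d) ∧
    (∀ a b c, (fun x => p.1 a x) '' p.2 b c = p.2 (p.1 a b) (p.1 a c)))

/-- the quotient of the field `K` by the group `G` with the quotient map `f` -/
def Real {r : ℕ} (p : X r) (K : Type) [Field K] (G : Subgroup Kˣ) (f : K → Fin (r+1)) : Prop :=
  Function.Surjective f ∧ f 0 = 0 ∧
    (∀ x y : K, f x = f y ↔ ∃ g ∈ G, y = x * (g : K)) ∧
    (∀ x y : K, f (x * y) = p.1 (f x) (f y)) ∧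
    (∀ x y : K, p.2 (f x) (f y) = {z | ∃ g ∈ G, ∃ h ∈ G, z = f (x * (g : K) + y * (h : K))})

/-- quotient hyperfields -/
def IsQuo {r : ℕ} (p : X r) : Prop :=
  ∃ (K : Type) (_ : Field K), ∃ G : Subgroup Kˣ, ∃ f : K → Fin (r+1),
    Function.Surjective f ∧ f 0 = 0 ∧
    (∀ x y : K, f x = f y ↔ ∃ g ∈ G, y = x * (g : K)) ∧
    (∀ x y : K, f (x * y) = p.1 (f x) (f y)) ∧
    (∀ x y : K, p.2 (f x) (f y) = {z | ∃ g ∈ G, ∃ h ∈ G, z = f (x * (g : K) + y * (h : K))})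

/-- multiplication tables of commutative groups with zero -/
def IsTab {r : ℕ} (m : Fin (r+1) → Fin (r+1) → Fin (r+1)) : Prop :=
  (∃ u : Fin (r+1), u ≠ 0 ∧ ∀ a, m u a = a) ∧
    (∀ a b, m a b = m b a) ∧
    (∀ a b c, m (m a b) c = m a (m b c)) ∧
    (∀ a, m 0 a = 0) ∧
    (∀ a b, a ≠ 0 → b ≠ 0 → m a b ≠ 0) ∧
    (∀ a, a ≠ 0 → ∃ b, ∀ c, m (m a b) c = c)

/-- `Fin (r + 1)` with the multiplication `m` -/
def Cp {r : ℕ} (m : Fin (r+1) → Fin (r+1) → Fin (r+1)) (_ : IsTab m) : Type := Fin (r+1)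

section Inst

variable {r : ℕ} (m : Fin (r+1) → Fin (r+1) → Fin (r+1)) (hm : IsTab m)

instance : Fintype (Cp m hm) := inferInstanceAs (Fintype (Fin (r+1)))
instance : DecidableEq (Cp m hm) := inferInstanceAs (DecidableEq (Fin (r+1)))

include hm in
lemma IsTab.inv_ex (a : Fin (r+1)) (ha : a ≠ 0) : ∃ b, m a b = hm.1.choose := by
  obtain ⟨b, hb⟩ := hm.2.2.2.2.2 a ha
  refine ⟨b, ?_⟩
  have h1 := hb hm.1.choose
  have h2 := hm.1.choose_spec.2 (m a b)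
  rw [hm.2.1] at h1
  rw [h2] at h1
  exact h1

open Classical in
noncomputable instance instCp : CommGroupWithZero (Cp m hm) where
  mul := m
  mul_assoc := hm.2.2.1
  one := hm.1.choose
  one_mul := hm.1.choose_spec.2
  mul_one := fun a => (hm.2.1 a _).trans (hm.1.choose_spec.2 a)
  zero := (0 : Fin (r+1))
  zero_mul := hm.2.2.2.1
  mul_zero := fun a => (hm.2.1 a 0).trans (hm.2.2.2.1 a)
  mul_comm := hm.2.1
  inv := fun a => if ha : a = (0 : Fin (r+1)) then (0 : Fin (r+1)) else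
    (hm.inv_ex m a ha).choose
  exists_pair_ne := ⟨(0 : Fin (r+1)), hm.1.choose, fun h => hm.1.choose_spec.1 h.symm⟩
  inv_zero := dif_pos rfl
  mul_inv_cancel := by
    intro a ha
    have h1 : (if ha : a = (0 : Fin (r+1)) then (0 : Fin (r+1)) else
      (hm.inv_ex m a ha).choose) = (hm.inv_ex m a ha).choose := dif_neg ha
    show m a (if ha : a = (0 : Fin (r+1)) then (0 : Fin (r+1)) else
      (hm.inv_ex m a ha).choose) = hm.1.choose
    rw [h1]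
    exact (hm.inv_ex m a ha).choose_spec

lemma card_units_Cp : Fintype.card (Cp m hm)ˣ = r := by
  rw [Fintype.card_units]
  have : Fintype.card (Cp m hm) = r + 1 := Fintype.card_fin (r+1)
  omega

lemma isHyp_of (h : Fin (r+1) → Fin (r+1) → Set (Fin (r+1))) (H : Hyper (F := Cp m hm) h) :
    IsHyp (m, h) :=
  ⟨hm.1, hm.2.1, hm.2.2.1, hm.2.2.2.1, hm.2.2.2.2.1, hm.2.2.2.2.2, H.ne, H.comm, H.assoc, H.zero,
    H.neg, H.rev, H.dist⟩

end Inst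

section Quo

variable {r : ℕ} {p : X r} {K : Type} [Field K] {G : Subgroup Kˣ} {f : K → Fin (r+1)}

lemma Real.zero_iff (R : Real p K G f) (x : K) : f x = 0 ↔ x = 0 := by
  rw [← R.2.1]
  constructor
  · intro h
    obtain ⟨g, -, hg⟩ := (R.2.2.1 0 x).1 h.symm
    rw [hg, zero_mul]
  · rintro rfl; rfl

lemma Real.isTab (R : Real p K G f) : IsTab p.1 := by
  obtain ⟨hs, h0, hf, hm, ha⟩ := id R
  refine ⟨⟨f 1, ?_, ?_⟩, ?_, ?_, ?_, ?_, ?_⟩
  · intro h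
    exact one_ne_zero ((R.zero_iff 1).1 h)
  · intro a
    obtain ⟨x, rfl⟩ := hs a
    rw [← hm, one_mul]
  · intro a b
    obtain ⟨x, rfl⟩ := hs a
    obtain ⟨y, rfl⟩ := hs b
    rw [← hm, ← hm, mul_comm]
  · intro a b c
    obtain ⟨x, rfl⟩ := hs a
    obtain ⟨y, rfl⟩ := hs b
    obtain ⟨z, rfl⟩ := hs c
    rw [← hm, ← hm, ← hm, ← hm, mul_assoc]
  · intro a
    obtain ⟨x, rfl⟩ := hs a
    rw [← h0, ← hm, zero_mul]
  · intro a b ha hb
    obtain ⟨x, rfl⟩ := hs a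
    obtain ⟨y, rfl⟩ := hs b
    rw [Ne, R.zero_iff] at ha hb
    rw [← hm, Ne, R.zero_iff]
    exact mul_ne_zero ha hb
  · intro a ha
    obtain ⟨x, rfl⟩ := hs a
    rw [Ne, R.zero_iff] at ha
    refine ⟨f x⁻¹, fun c => ?_⟩
    obtain ⟨z, rfl⟩ := hs c
    rw [← hm, ← hm, mul_inv_cancel₀ ha, one_mul]

lemma Real.weak (R : Real p K G f) : Weak (F := Cp p.1 R.isTab) p.2 := by
  obtain ⟨hs, h0, hf, hm, ha⟩ := id R
  have hmem : ∀ x y : K, ∀ z : Fin (r+1), z ∈ p.2 (f x) (f y) ↔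
      ∃ g ∈ G, ∃ h ∈ G, z = f (x * (g : K) + y * (h : K)) := by
    intro x y z
    rw [ha]; rfl
  refine ⟨?_, ?_, ?_, ?_, ?_⟩
  · intro a b
    obtain ⟨x, rfl⟩ := hs a
    obtain ⟨y, rfl⟩ := hs b
    ext z
    rw [hmem, hmem]
    constructor
    · rintro ⟨g, hg, h, hh, rfl⟩
      exact ⟨h, hh, g, hg, congrArg f (add_comm _ _)⟩
    · rintro ⟨g, hg, h, hh, rfl⟩
      exact ⟨h, hh, g, hg, congrArg f (add_comm _ _)⟩
  · intro a
    obtain ⟨y, rfl⟩ := hs a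
    show p.2 (0 : Fin (r+1)) (f y) = {f y}
    rw [← h0]
    ext z
    rw [hmem, Set.mem_singleton_iff]
    constructor
    · rintro ⟨g, hg, h, hh, rfl⟩
      rw [zero_mul, zero_add]
      exact ((hf _ _).2 ⟨h, hh, rfl⟩).symm
    · rintro rfl
      exact ⟨1, G.one_mem, 1, G.one_mem, by simp⟩
  · intro a
    obtain ⟨x, rfl⟩ := hs a
    refine ⟨f (-x), ?_, ?_⟩
    · show (0 : Fin (r+1)) ∈ p.2 (f x) (f (-x))
      rw [hmem]
      exact ⟨1, G.one_mem, 1, G.one_mem, by simp [h0]⟩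
    · intro b hb
      obtain ⟨y, rfl⟩ := hs b
      have hb' : (0 : Fin (r+1)) ∈ p.2 (f x) (f y) := hb
      rw [hmem] at hb'
      obtain ⟨g, hg, h, hh, e⟩ := hb'
      have e1 := (R.zero_iff _).1 e.symm
      symm
      refine (hf _ _).2 ⟨g * h⁻¹, G.mul_mem hg (G.inv_mem hh), ?_⟩
      have hne : (h : K) ≠ 0 := h.ne_zero
      rw [Units.val_mul, Units.val_inv_eq_inv_val]
      field_simp
      linear_combination e1
  · intro a b c d hab hbd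
    obtain ⟨x, rfl⟩ := hs b
    obtain ⟨y, rfl⟩ := hs c
    obtain ⟨z, rfl⟩ := hs d
    obtain ⟨g, hg, h, hh, e0⟩ := (hmem x y a).1 hab
    obtain ⟨g', hg', h', hh', e⟩ := (hmem x z 0).1 hbd
    have e1 := (R.zero_iff _).1 e.symm
    rw [e0]
    show f y ∈ p.2 (f (x * (g : K) + y * (h : K))) (f z)
    rw [hmem]
    refine ⟨1, G.one_mem, g * g'⁻¹ * h', G.mul_mem (G.mul_mem hg (G.inv_mem hg')) hh', ?_⟩
    refine (hf _ _).2 ⟨h, hh, ?_⟩
    have hne : (g' : K) ≠ 0 := g'.ne_zero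
    rw [Units.val_mul, Units.val_mul, Units.val_inv_eq_inv_val, Units.val_one]
    field_simp
    linear_combination (g : K) * e1
  · intro a b c
    obtain ⟨w, rfl⟩ := hs a
    obtain ⟨x, rfl⟩ := hs b
    obtain ⟨y, rfl⟩ := hs c
    show (fun x => p.1 (f w) x) '' p.2 (f x) (f y) = p.2 (p.1 (f w) (f x)) (p.1 (f w) (f y))
    rw [← hm, ← hm]
    ext z
    rw [hmem]
    constructor
    · rintro ⟨v, hv, rfl⟩
      rw [hmem] at hv
      obtain ⟨g, hg, h, hh, rfl⟩ := hv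
      exact ⟨g, hg, h, hh, by simp only; rw [← hm]; congr 1; ring⟩
    · rintro ⟨g, hg, h, hh, rfl⟩
      exact ⟨f (x * g + y * h), (hmem _ _ _).2 ⟨g, hg, h, hh, rfl⟩,
        by simp only; rw [← hm]; congr 1; ring⟩

/-- `1 - 1` is everything -/
def FullP {r : ℕ} (p : X r) : Prop := ∀ u, (∀ a, p.1 u a = a) → ∀ e, (0 : Fin (r+1)) ∈ p.2 u e →
  p.2 u e = Set.univ

lemma Real.fullP (R : Real p K G f)
    (hd : ∀ c : K, c ≠ 0 → ∃ g ∈ G, ∃ h ∈ G, (g : K) - (h : K) = c) : FullP p := by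
  obtain ⟨hs, h0, hf, hm, ha⟩ := id R
  intro u hu e he
  have hu1 : u = f 1 := by
    have h1 := hu (f 1)
    have h2 := R.isTab.2.1 u (f 1)
    obtain ⟨x, rfl⟩ := hs u
    rw [← hm, mul_one] at h1
    exact h1
  subst hu1
  obtain ⟨y, rfl⟩ := hs e
  rw [ha] at he ⊢
  obtain ⟨g, hg, h, hh, e0⟩ := he
  have e1 := (R.zero_iff _).1 e0.symm
  rw [Set.eq_univ_iff_forall]
  intro z
  obtain ⟨c, rfl⟩ := hs z
  obtain ⟨g', hg', h', hh', e2⟩ : ∃ g ∈ G, ∃ h ∈ G, (g : K) - (h : K) = c := by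
    by_cases hc : c = 0
    · exact ⟨1, G.one_mem, 1, G.one_mem, by rw [hc]; simp⟩
    · exact hd c hc
  refine ⟨g', hg', h' * h * g⁻¹, G.mul_mem (G.mul_mem hh' hh) (G.inv_mem hg), ?_⟩
  congr 1
  have hne : (g : K) ≠ 0 := g.ne_zero
  have hne2 : (h : K) ≠ 0 := h.ne_zero
  rw [Units.val_mul, Units.val_mul, Units.val_inv_eq_inv_val, ← e2]
  field_simp
  linear_combination -(h' : K) * e1

end Quo

end Q257.HF
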